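import Pool.Agent.H309.Burn.Tree

/-!
Certificates, written by a computer search, for the claim `P2`; `Pool.Agent.H309.Burn.Tree` says
how they are read.
-/

set_option maxRecDepth 100000
set_option maxHeartbeats 4000000

namespace H309.Burn

open H15.TC

/-- words with trivial cube -/
def dsP2 : List (List ℕ) := [[0], [2], [4], [0, 2], [0, 4], [2, 4], [2, 5]]
/-- goals -/
def goalsP2 : List (List ℕ) := [[0, 3], [0, 5], [0, 3, 4]]

def dsP2_1 : List (List ℕ) := [[0], [2], [4], [0, 2], [0, 4], [2, 4], [2, 5], [0, 2, 4]]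
def dsP2_2 : List (List ℕ) := [[0], [2], [4], [0, 2], [0, 4], [2, 4], [2, 5], [0, 2, 4], [0, 4, 2]]
def dsP2_3 : List (List ℕ) := [[0], [2], [4], [0, 2], [0, 4], [2, 4], [2, 5], [0, 2, 4], [0, 4, 2], [0, 2, 5]]
def dsP2_4 : List (List ℕ) := [[0], [2], [4], [0, 2], [0, 4], [2, 4], [2, 5], [0, 2, 4], [0, 4, 2], [0, 2, 5], [3, 5, 0]]
def dsP2_5 : List (List ℕ) := [[0], [2], [4], [0, 2], [0, 4], [2, 4], [2, 5], [0, 2, 4], [0, 4, 2], [0, 2, 5], [3, 5, 0], [0, 5, 2]]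
def dsP2_6 : List (List ℕ) := [[0], [2], [4], [0, 2], [0, 4], [2, 4], [2, 5], [0, 2, 4], [0, 4, 2], [0, 2, 5], [3, 5, 0], [0, 3, 4]]
def dsP2_7 : List (List ℕ) := [[0], [2], [4], [0, 2], [0, 4], [2, 4], [2, 5], [0, 2, 4], [0, 4, 2], [0, 2, 5], [1, 4]]
def dsP2_8 : List (List ℕ) := [[0], [2], [4], [0, 2], [0, 4], [2, 4], [2, 5], [0, 2, 4], [0, 4, 2], [0, 4, 3]]
def dsP2_9 : List (List ℕ) := [[0], [2], [4], [0, 2], [0, 4], [2, 4], [2, 5], [0, 2, 4], [0, 4, 2], [0, 4, 3], [5, 3, 0]]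
def dsP2_10 : List (List ℕ) := [[0], [2], [4], [0, 2], [0, 4], [2, 4], [2, 5], [0, 2, 4], [0, 4, 2], [0, 4, 3], [5, 3, 0], [0, 5, 2]]
def dsP2_11 : List (List ℕ) := [[0], [2], [4], [0, 2], [0, 4], [2, 4], [2, 5], [0, 2, 4], [0, 4, 2], [0, 4, 3], [5, 3, 0], [0, 5, 2], [0, 3, 0, 4]]
def dsP2_12 : List (List ℕ) := [[0], [2], [4], [0, 2], [0, 4], [2, 4], [2, 5], [0, 2, 4], [0, 4, 2], [0, 4, 3], [5, 3, 0], [0, 5, 2], [0, 5, 1, 2]]
def dsP2_13 : List (List ℕ) := [[0], [2], [4], [0, 2], [0, 4], [2, 4], [2, 5], [0, 2, 4], [0, 4, 2], [0, 4, 3], [5, 3, 0], [0, 3, 4]]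
def dsP2_14 : List (List ℕ) := [[0], [2], [4], [0, 2], [0, 4], [2, 4], [2, 5], [0, 2, 4], [0, 4, 2], [0, 4, 3], [1, 2]]
def dsP2_15 : List (List ℕ) := [[0], [2], [4], [0, 2], [0, 4], [2, 4], [2, 5], [0, 2, 4], [0, 3, 5]]
def dsP2_16 : List (List ℕ) := [[0], [2], [4], [0, 2], [0, 4], [2, 4], [2, 5], [0, 2, 4], [0, 3, 5], [5, 0]]
def dsP2_17 : List (List ℕ) := [[0], [2], [4], [0, 2], [0, 4], [2, 4], [2, 5], [0, 2, 4], [0, 3, 5], [1, 4, 3]]
def dsP2_18 : List (List ℕ) := [[0], [2], [4], [0, 2], [0, 4], [2, 4], [2, 5], [0, 2, 4], [0, 3, 5], [1, 4, 3], [0, 3]]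
def dsP2_19 : List (List ℕ) := [[0], [2], [4], [0, 2], [0, 4], [2, 4], [2, 5], [0, 2, 4], [0, 3, 5], [1, 4, 3], [2, 1, 5]]
def dsP2_20 : List (List ℕ) := [[0], [2], [4], [0, 2], [0, 4], [2, 4], [2, 5], [0, 5, 3]]
def dsP2_21 : List (List ℕ) := [[0], [2], [4], [0, 2], [0, 4], [2, 4], [2, 5], [0, 5, 3], [0, 5]]
def dsP2_22 : List (List ℕ) := [[0], [2], [4], [0, 2], [0, 4], [2, 4], [2, 5], [0, 5, 3], [4, 1, 3]]
def dsP2_23 : List (List ℕ) := [[0], [2], [4], [0, 2], [0, 4], [2, 4], [2, 5], [0, 5, 3], [4, 1, 3], [3, 0]]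
def dsP2_24 : List (List ℕ) := [[0], [2], [4], [0, 2], [0, 4], [2, 4], [2, 5], [0, 5, 3], [4, 1, 3], [1, 2, 5]]
def dsP2_25 : List (List ℕ) := [[0], [2], [4], [0, 2], [0, 4], [2, 4], [2, 5], [0, 5, 3], [4, 1, 3], [1, 2, 5], [0, 4, 2]]
def dsP2_26 : List (List ℕ) := [[0], [2], [4], [0, 2], [0, 4], [2, 4], [2, 5], [0, 5, 3], [4, 1, 3], [1, 2, 5], [0, 4, 2], [0, 4, 1, 3]]
def dsP2_27 : List (List ℕ) := [[0], [2], [4], [0, 2], [0, 4], [2, 4], [2, 5], [0, 5, 3], [4, 1, 3], [1, 2, 5], [0, 4, 2], [0, 2, 0, 5]]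
def dsP2_28 : List (List ℕ) := [[0], [2], [4], [0, 2], [0, 4], [2, 4], [2, 5], [0, 5, 3], [4, 1, 3], [1, 2, 5], [0, 3, 5]]
def dsP2_29 : List (List ℕ) := [[0], [2], [4], [0, 2], [0, 4], [2, 4], [2, 5], [0, 5, 3], [4, 1, 3], [1, 2, 5], [0, 3, 5], [5, 0]]
def dsP2_30 : List (List ℕ) := [[0], [2], [4], [0, 2], [0, 4], [2, 4], [2, 5], [0, 5, 3], [4, 1, 3], [1, 2, 5], [0, 3, 5], [1, 4, 3]]
def dsP2_31 : List (List ℕ) := [[0], [2], [4], [0, 2], [0, 4], [2, 4], [2, 5], [0, 5, 3], [4, 1, 3], [1, 2, 5], [0, 3, 5], [1, 4, 3], [0, 3]]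
def dsP2_32 : List (List ℕ) := [[0], [2], [4], [0, 2], [0, 4], [2, 4], [2, 5], [0, 5, 3], [4, 1, 3], [1, 2, 5], [0, 3, 5], [1, 4, 3], [2, 1, 5]]

theorem okP2_32 : OK goalsP2 dsP2_32 :=
  .leaf _ [[0, 0, 0], [2, 2, 2], [4, 4, 4], [0, 2, 0, 2, 0, 2], [0, 4, 0, 4, 0, 4], [2, 4, 2, 4, 2, 4], [2, 5, 2, 5, 2, 5], [0, 5, 3, 0, 5, 3, 0, 5, 3], [4, 1, 3, 4, 1, 3, 4, 1, 3], [1, 2, 5, 1, 2, 5, 1, 2, 5], [0, 3, 5, 0, 3, 5, 0, 3, 5], [1, 4, 3, 1, 4, 3, 1, 4, 3], [2, 1, 5, 2, 1, 5, 2, 1, 5]]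
    [433120042190347214843912837073124483666218422806652074852353]
    [141] 2 [0, 3, 4] (by decide +kernel) rfl (by decide +kernel)
theorem okP2_31 : OK goalsP2 dsP2_31 :=
  .leaf _ [[0, 0, 0], [2, 2, 2], [4, 4, 4], [0, 2, 0, 2, 0, 2], [0, 4, 0, 4, 0, 4], [2, 4, 2, 4, 2, 4], [2, 5, 2, 5, 2, 5], [0, 5, 3, 0, 5, 3, 0, 5, 3], [4, 1, 3, 4, 1, 3, 4, 1, 3], [1, 2, 5, 1, 2, 5, 1, 2, 5], [0, 3, 5, 0, 3, 5, 0, 3, 5], [1, 4, 3, 1, 4, 3, 1, 4, 3], [0, 3, 0, 3, 0, 3]]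
    [58486034429065793604756956664156913665]
    [13] 0 [0, 3] (by decide +kernel) rfl (by decide +kernel)
theorem okP2_30 : OK goalsP2 dsP2_30 :=
  .node _ dsP2_31 dsP2_32 [] [4] [0, 3] [0, 3, 5] [] [4] (by decide +kernel) (by decide +kernel)
    (by decide +kernel) okP2_31 okP2_32
theorem okP2_29 : OK goalsP2 dsP2_29 :=
  .leaf _ [[0, 0, 0], [2, 2, 2], [4, 4, 4], [0, 2, 0, 2, 0, 2], [0, 4, 0, 4, 0, 4], [2, 4, 2, 4, 2, 4], [2, 5, 2, 5, 2, 5], [0, 5, 3, 0, 5, 3, 0, 5, 3], [4, 1, 3, 4, 1, 3, 4, 1, 3], [1, 2, 5, 1, 2, 5, 1, 2, 5], [0, 3, 5, 0, 3, 5, 0, 3, 5], [5, 0, 5, 0, 5, 0]]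
    [61144490420635634795297536524041584641]
    [76] 1 [0, 5] (by decide +kernel) rfl (by decide +kernel)
theorem okP2_28 : OK goalsP2 dsP2_28 :=
  .node _ dsP2_29 dsP2_30 [] [2] [0] [0, 3, 5] [] [2] (by decide +kernel) (by decide +kernel)
    (by decide +kernel) okP2_29 okP2_30
theorem okP2_27 : OK goalsP2 dsP2_27 :=
  .leaf _ [[0, 0, 0], [2, 2, 2], [4, 4, 4], [0, 2, 0, 2, 0, 2], [0, 4, 0, 4, 0, 4], [2, 4, 2, 4, 2, 4], [2, 5, 2, 5, 2, 5], [0, 5, 3, 0, 5, 3, 0, 5, 3], [4, 1, 3, 4, 1, 3, 4, 1, 3], [1, 2, 5, 1, 2, 5, 1, 2, 5], [0, 4, 2, 0, 4, 2, 0, 4, 2], [0, 2, 0, 5, 0, 2, 0, 5, 0, 2, 0, 5]]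
    [864952512354380375117869985342448859842157063180397061311542394040632320264991088008667844820717026343664220314136612247054197051797542209788227118105807531028448866265943086026205886830188386620334956330510070286020539654976290068660028022095530859077201019748881116885647034103662698709337297728115824544805812242995850429959647936436113636429125712184547393181350732568609119080277712021835584710501934331132048354519759716353, 113689212886549685770285195261292584414488410009387926040655891728286310885764366936395786293601394659585713678912014379170365638722549973107]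
    [5079839494312337946852078428758325499240823821609650267339672360008913823015476400020307848063290505160158902798463616509981247970108919218316273387962208813337370461167421788245404011031518416357180221918534250419704389581818893959169] 2 [0, 3, 4] (by decide +kernel) rfl (by decide +kernel)
theorem okP2_26 : OK goalsP2 dsP2_26 :=
  .leaf _ [[0, 0, 0], [2, 2, 2], [4, 4, 4], [0, 2, 0, 2, 0, 2], [0, 4, 0, 4, 0, 4], [2, 4, 2, 4, 2, 4], [2, 5, 2, 5, 2, 5], [0, 5, 3, 0, 5, 3, 0, 5, 3], [4, 1, 3, 4, 1, 3, 4, 1, 3], [1, 2, 5, 1, 2, 5, 1, 2, 5], [0, 4, 2, 0, 4, 2, 0, 4, 2], [0, 4, 1, 3, 0, 4, 1, 3, 0, 4, 1, 3]]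
    [4408995235380289352604651191254219116804107594503160580328630426381149380132480324457666921605677649779992073833211808069519948812086666539339104575064120812557856364477953883940775938407955651887959638017]
    [2729778856832955223402425761031622046834774596887074595081621641687625367553] 0 [0, 3] (by decide +kernel) rfl (by decide +kernel)
theorem okP2_25 : OK goalsP2 dsP2_25 :=
  .node _ dsP2_26 dsP2_27 [] [0] [] [4, 1, 3] [] [] (by decide +kernel) (by decide +kernel)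
    (by decide +kernel) okP2_26 okP2_27
theorem okP2_24 : OK goalsP2 dsP2_24 :=
  .node _ dsP2_25 dsP2_28 [] [0] [2] [2, 4] [] [] (by decide +kernel) (by decide +kernel)
    (by decide +kernel) okP2_25 okP2_28
theorem okP2_23 : OK goalsP2 dsP2_23 :=
  .leaf _ [[0, 0, 0], [2, 2, 2], [4, 4, 4], [0, 2, 0, 2, 0, 2], [0, 4, 0, 4, 0, 4], [2, 4, 2, 4, 2, 4], [2, 5, 2, 5, 2, 5], [0, 5, 3, 0, 5, 3, 0, 5, 3], [4, 1, 3, 4, 1, 3, 4, 1, 3], [3, 0, 3, 0, 3, 0]]
    [58486034429065793604756956664156913665]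
    [74] 0 [0, 3] (by decide +kernel) rfl (by decide +kernel)
theorem okP2_22 : OK goalsP2 dsP2_22 :=
  .node _ dsP2_23 dsP2_24 [] [4] [0] [0, 5, 3] [] [4] (by decide +kernel) (by decide +kernel)
    (by decide +kernel) okP2_23 okP2_24
theorem okP2_21 : OK goalsP2 dsP2_21 :=
  .leaf _ [[0, 0, 0], [2, 2, 2], [4, 4, 4], [0, 2, 0, 2, 0, 2], [0, 4, 0, 4, 0, 4], [2, 4, 2, 4, 2, 4], [2, 5, 2, 5, 2, 5], [0, 5, 3, 0, 5, 3, 0, 5, 3], [0, 5, 0, 5, 0, 5]]
    [61144490420635634795297536524041584641]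
    [9] 1 [0, 5] (by decide +kernel) rfl (by decide +kernel)
theorem okP2_20 : OK goalsP2 dsP2_20 :=
  .node _ dsP2_21 dsP2_22 [] [2] [0, 5] [0, 5, 3] [] [2] (by decide +kernel) (by decide +kernel)
    (by decide +kernel) okP2_21 okP2_22
theorem okP2_19 : OK goalsP2 dsP2_19 :=
  .leaf _ [[0, 0, 0], [2, 2, 2], [4, 4, 4], [0, 2, 0, 2, 0, 2], [0, 4, 0, 4, 0, 4], [2, 4, 2, 4, 2, 4], [2, 5, 2, 5, 2, 5], [0, 2, 4, 0, 2, 4, 0, 2, 4], [0, 3, 5, 0, 3, 5, 0, 3, 5], [1, 4, 3, 1, 4, 3, 1, 4, 3], [2, 1, 5, 2, 1, 5, 2, 1, 5]]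
    [433120042190347214843912837073124483666218422806652074852353]
    [139] 2 [0, 3, 4] (by decide +kernel) rfl (by decide +kernel)
theorem okP2_18 : OK goalsP2 dsP2_18 :=
  .leaf _ [[0, 0, 0], [2, 2, 2], [4, 4, 4], [0, 2, 0, 2, 0, 2], [0, 4, 0, 4, 0, 4], [2, 4, 2, 4, 2, 4], [2, 5, 2, 5, 2, 5], [0, 2, 4, 0, 2, 4, 0, 2, 4], [0, 3, 5, 0, 3, 5, 0, 3, 5], [1, 4, 3, 1, 4, 3, 1, 4, 3], [0, 3, 0, 3, 0, 3]]
    [58486034429065793604756956664156913665]
    [11] 0 [0, 3] (by decide +kernel) rfl (by decide +kernel)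
theorem okP2_17 : OK goalsP2 dsP2_17 :=
  .node _ dsP2_18 dsP2_19 [] [4] [0, 3] [0, 3, 5] [] [4] (by decide +kernel) (by decide +kernel)
    (by decide +kernel) okP2_18 okP2_19
theorem okP2_16 : OK goalsP2 dsP2_16 :=
  .leaf _ [[0, 0, 0], [2, 2, 2], [4, 4, 4], [0, 2, 0, 2, 0, 2], [0, 4, 0, 4, 0, 4], [2, 4, 2, 4, 2, 4], [2, 5, 2, 5, 2, 5], [0, 2, 4, 0, 2, 4, 0, 2, 4], [0, 3, 5, 0, 3, 5, 0, 3, 5], [5, 0, 5, 0, 5, 0]]
    [61144490420635634795297536524041584641]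
    [74] 1 [0, 5] (by decide +kernel) rfl (by decide +kernel)
theorem okP2_15 : OK goalsP2 dsP2_15 :=
  .node _ dsP2_16 dsP2_17 [] [2] [0] [0, 3, 5] [] [2] (by decide +kernel) (by decide +kernel)
    (by decide +kernel) okP2_16 okP2_17
theorem okP2_14 : OK goalsP2 dsP2_14 :=
  .leaf _ [[0, 0, 0], [2, 2, 2], [4, 4, 4], [0, 2, 0, 2, 0, 2], [0, 4, 0, 4, 0, 4], [2, 4, 2, 4, 2, 4], [2, 5, 2, 5, 2, 5], [0, 2, 4, 0, 2, 4, 0, 2, 4], [0, 4, 2, 0, 4, 2, 0, 4, 2], [0, 4, 3, 0, 4, 3, 0, 4, 3], [1, 2, 1, 2, 1, 2]]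
    [66902294081626298490400759574901748674854913]
    [75] 0 [0, 3] (by decide +kernel) rfl (by decide +kernel)
theorem okP2_13 : OK goalsP2 dsP2_13 :=
  .leaf _ [[0, 0, 0], [2, 2, 2], [4, 4, 4], [0, 2, 0, 2, 0, 2], [0, 4, 0, 4, 0, 4], [2, 4, 2, 4, 2, 4], [2, 5, 2, 5, 2, 5], [0, 2, 4, 0, 2, 4, 0, 2, 4], [0, 4, 2, 0, 4, 2, 0, 4, 2], [0, 4, 3, 0, 4, 3, 0, 4, 3], [5, 3, 0, 5, 3, 0, 5, 3, 0], [0, 3, 4, 0, 3, 4, 0, 3, 4]]
    [433120042190347214843912837073124483666218422806652074852353]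
    [12] 2 [0, 3, 4] (by decide +kernel) rfl (by decide +kernel)
theorem okP2_12 : OK goalsP2 dsP2_12 :=
  .leaf _ [[0, 0, 0], [2, 2, 2], [4, 4, 4], [0, 2, 0, 2, 0, 2], [0, 4, 0, 4, 0, 4], [2, 4, 2, 4, 2, 4], [2, 5, 2, 5, 2, 5], [0, 2, 4, 0, 2, 4, 0, 2, 4], [0, 4, 2, 0, 4, 2, 0, 4, 2], [0, 4, 3, 0, 4, 3, 0, 4, 3], [5, 3, 0, 5, 3, 0, 5, 3, 0], [0, 5, 2, 0, 5, 2, 0, 5, 2], [0, 5, 1, 2, 0, 5, 1, 2, 0, 5, 1, 2]]
    [53791252501417252719303459404805477061231621371180516489727924855676003137591202688962899200278037140944115875393734185286301071479321899565770323449103855304047484009915157010995888740147147078771017785548013915743546942109162726778788987880458794232481016965749051859662483612675815097776841162753]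
    [225654295081370712272329648312400413294057218737096503779737336197324407673452932952689679374519208247297] 0 [0, 3] (by decide +kernel) rfl (by decide +kernel)
theorem okP2_11 : OK goalsP2 dsP2_11 :=
  .leaf _ [[0, 0, 0], [2, 2, 2], [4, 4, 4], [0, 2, 0, 2, 0, 2], [0, 4, 0, 4, 0, 4], [2, 4, 2, 4, 2, 4], [2, 5, 2, 5, 2, 5], [0, 2, 4, 0, 2, 4, 0, 2, 4], [0, 4, 2, 0, 4, 2, 0, 4, 2], [0, 4, 3, 0, 4, 3, 0, 4, 3], [5, 3, 0, 5, 3, 0, 5, 3, 0], [0, 5, 2, 0, 5, 2, 0, 5, 2], [0, 3, 0, 4, 0, 3, 0, 4, 0, 3, 0, 4]]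
    [866765829884980485892379934952150578866385084979453924911808733105545142749884281297115406507880229812431430119061823189179451840036395805882851420729431060150606223272393707440824740676895062327329862450449311223558717939092188813278242999599974973183412052372951689484890073044159566814612249364609745315773494714835209732963680197255059344526087024058336669201649297375096799627617984867945511487782495363305042084590075772929, 1728091709015557600555917021980321021608589843768236228194385918246589073285594554116507413481552223039137588884800482571286340040440609473678378118821699558242254378824590468855009701476207360318752476945296902507662788752833071200214139152954158297095620650404055036161406619485622498765230162134610506287458022912617964853279495483702168222023423312867232065124022914670677916704102242445755783944349795342160381095484208447971, 275001068536988613]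
    [79394412462948458365249343159210824015341454897648602829615993118048287102076978632311478290773484406329100834201694245251216522572466125940934310720747849582070483166781280412324932013679311066869138619613730017919801647300564518042394653833744540442970185228239700757333259170734883560079854305745069704019311606996608098676853588594121495815913190414814462083073] 0 [0, 3] (by decide +kernel) rfl (by decide +kernel)
theorem okP2_10 : OK goalsP2 dsP2_10 :=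
  .node _ dsP2_11 dsP2_12 [] [0] [0, 4] [0, 4, 3] [] [] (by decide +kernel) (by decide +kernel)
    (by decide +kernel) okP2_11 okP2_12
theorem okP2_9 : OK goalsP2 dsP2_9 :=
  .node _ dsP2_10 dsP2_13 [] [0] [2] [2, 5] [] [] (by decide +kernel) (by decide +kernel)
    (by decide +kernel) okP2_10 okP2_13
theorem okP2_8 : OK goalsP2 dsP2_8 :=
  .node _ dsP2_9 dsP2_14 [] [4] [0] [0, 4, 3] [] [4] (by decide +kernel) (by decide +kernel)
    (by decide +kernel) okP2_9 okP2_14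
theorem okP2_7 : OK goalsP2 dsP2_7 :=
  .leaf _ [[0, 0, 0], [2, 2, 2], [4, 4, 4], [0, 2, 0, 2, 0, 2], [0, 4, 0, 4, 0, 4], [2, 4, 2, 4, 2, 4], [2, 5, 2, 5, 2, 5], [0, 2, 4, 0, 2, 4, 0, 2, 4], [0, 4, 2, 0, 4, 2, 0, 4, 2], [0, 2, 5, 0, 2, 5, 0, 2, 5], [1, 4, 1, 4, 1, 4]]
    [111503787137143536343313386660778331571486721]
    [75] 1 [0, 5] (by decide +kernel) rfl (by decide +kernel)
theorem okP2_6 : OK goalsP2 dsP2_6 :=
  .leaf _ [[0, 0, 0], [2, 2, 2], [4, 4, 4], [0, 2, 0, 2, 0, 2], [0, 4, 0, 4, 0, 4], [2, 4, 2, 4, 2, 4], [2, 5, 2, 5, 2, 5], [0, 2, 4, 0, 2, 4, 0, 2, 4], [0, 4, 2, 0, 4, 2, 0, 4, 2], [0, 2, 5, 0, 2, 5, 0, 2, 5], [3, 5, 0, 3, 5, 0, 3, 5, 0], [0, 3, 4, 0, 3, 4, 0, 3, 4]]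
    [433120042190347214843912837073124483666218422806652074852353]
    [12] 2 [0, 3, 4] (by decide +kernel) rfl (by decide +kernel)
theorem okP2_5 : OK goalsP2 dsP2_5 :=
  .leaf _ [[0, 0, 0], [2, 2, 2], [4, 4, 4], [0, 2, 0, 2, 0, 2], [0, 4, 0, 4, 0, 4], [2, 4, 2, 4, 2, 4], [2, 5, 2, 5, 2, 5], [0, 2, 4, 0, 2, 4, 0, 2, 4], [0, 4, 2, 0, 4, 2, 0, 4, 2], [0, 2, 5, 0, 2, 5, 0, 2, 5], [3, 5, 0, 3, 5, 0, 3, 5, 0], [0, 5, 2, 0, 5, 2, 0, 5, 2]]
    [590693648584710586859553738281776241804823199821502740966995910280028121977118386956911858024027024863974132439975439487147862262108024866214845560585191605110843473139665337756684269802985073402040986480875026963957524768975297140234924481546075612435777337705182533605795037016723013758315335161290764547495165556817550802869055074072172581043772789803130260392987672984579706055831293263873]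
    [137482413738715350589578169790847951929780084112797468568299492906352386115405051134524650375249649084887318376291266214647016072954334943898908053722890242] 1 [0, 5] (by decide +kernel) rfl (by decide +kernel)
theorem okP2_4 : OK goalsP2 dsP2_4 :=
  .node _ dsP2_5 dsP2_6 [] [0] [2] [2, 5] [] [] (by decide +kernel) (by decide +kernel)
    (by decide +kernel) okP2_5 okP2_6
theorem okP2_3 : OK goalsP2 dsP2_3 :=
  .node _ dsP2_4 dsP2_7 [] [2] [0] [0, 2, 5] [] [2] (by decide +kernel) (by decide +kernel)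
    (by decide +kernel) okP2_4 okP2_7
theorem okP2_2 : OK goalsP2 dsP2_2 :=
  .node _ dsP2_3 dsP2_8 [] [0] [] [2, 5] [] [] (by decide +kernel) (by decide +kernel)
    (by decide +kernel) okP2_3 okP2_8
theorem okP2_1 : OK goalsP2 dsP2_1 :=
  .node _ dsP2_2 dsP2_15 [] [0] [2] [2, 4] [] [] (by decide +kernel) (by decide +kernel)
    (by decide +kernel) okP2_2 okP2_15
theorem okP2_0 : OK goalsP2 dsP2 :=
  .node _ dsP2_1 dsP2_20 [] [0] [] [2, 4] [] [] (by decide +kernel) (by decide +kernel)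
    (by decide +kernel) okP2_1 okP2_20

end H309.Burn
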