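import Pool.Agent.H309.Burn.Tree

/-!
Certificates, written by a computer search, for the claim `P3`; `Pool.Agent.H309.Burn.Tree` says
how they are read.
-/

set_option maxRecDepth 100000
set_option maxHeartbeats 4000000

namespace H309.Burn

open H15.TC

/-- words with trivial cube -/
def dsP3 : List (List ℕ) := [[0], [2], [4], [0, 2], [0, 4], [0, 5], [2, 4]]
/-- goals -/
def goalsP3 : List (List ℕ) := [[0, 3], [2, 5], [0, 3, 4]]

def dsP3_1 : List (List ℕ) := [[0], [2], [4], [0, 2], [0, 4], [0, 5], [2, 4], [0, 2, 4]]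
def dsP3_2 : List (List ℕ) := [[0], [2], [4], [0, 2], [0, 4], [0, 5], [2, 4], [0, 2, 4], [0, 4, 2]]
def dsP3_3 : List (List ℕ) := [[0], [2], [4], [0, 2], [0, 4], [0, 5], [2, 4], [0, 2, 4], [0, 4, 2], [2, 5, 0]]
def dsP3_4 : List (List ℕ) := [[0], [2], [4], [0, 2], [0, 4], [0, 5], [2, 4], [0, 2, 4], [0, 4, 2], [2, 5, 0], [2, 5, 1]]
def dsP3_5 : List (List ℕ) := [[0], [2], [4], [0, 2], [0, 4], [0, 5], [2, 4], [0, 2, 4], [0, 4, 2], [2, 5, 0], [2, 5, 1], [0, 4, 0, 2]]
def dsP3_6 : List (List ℕ) := [[0], [2], [4], [0, 2], [0, 4], [0, 5], [2, 4], [0, 2, 4], [0, 4, 2], [2, 5, 0], [2, 5, 1], [0, 3, 1, 5]]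
def dsP3_7 : List (List ℕ) := [[0], [2], [4], [0, 2], [0, 4], [0, 5], [2, 4], [0, 2, 4], [0, 4, 2], [2, 5, 0], [2, 5, 1], [0, 3, 1, 5], [0, 5, 0, 2]]
def dsP3_8 : List (List ℕ) := [[0], [2], [4], [0, 2], [0, 4], [0, 5], [2, 4], [0, 2, 4], [0, 4, 2], [2, 5, 0], [2, 5, 1], [0, 3, 1, 5], [0, 3, 1, 4]]
def dsP3_9 : List (List ℕ) := [[0], [2], [4], [0, 2], [0, 4], [0, 5], [2, 4], [0, 2, 4], [0, 4, 2], [2, 5, 0], [4, 3]]
def dsP3_10 : List (List ℕ) := [[0], [2], [4], [0, 2], [0, 4], [0, 5], [2, 4], [0, 2, 4], [0, 4, 2], [2, 1, 4]]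
def dsP3_11 : List (List ℕ) := [[0], [2], [4], [0, 2], [0, 4], [0, 5], [2, 4], [0, 2, 4], [0, 4, 2], [2, 1, 4], [5, 2, 1]]
def dsP3_12 : List (List ℕ) := [[0], [2], [4], [0, 2], [0, 4], [0, 5], [2, 4], [0, 2, 4], [0, 4, 2], [2, 1, 4], [0, 3]]
def dsP3_13 : List (List ℕ) := [[0], [2], [4], [0, 2], [0, 4], [0, 5], [2, 4], [0, 2, 4], [0, 3, 5]]
def dsP3_14 : List (List ℕ) := [[0], [2], [4], [0, 2], [0, 4], [0, 5], [2, 4], [0, 2, 4], [0, 3, 5], [0, 3]]
def dsP3_15 : List (List ℕ) := [[0], [2], [4], [0, 2], [0, 4], [0, 5], [2, 4], [0, 2, 4], [0, 3, 5], [2, 1, 5]]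
def dsP3_16 : List (List ℕ) := [[0], [2], [4], [0, 2], [0, 4], [0, 5], [2, 4], [0, 5, 3]]
def dsP3_17 : List (List ℕ) := [[0], [2], [4], [0, 2], [0, 4], [0, 5], [2, 4], [0, 5, 3], [3, 0]]
def dsP3_18 : List (List ℕ) := [[0], [2], [4], [0, 2], [0, 4], [0, 5], [2, 4], [0, 5, 3], [1, 2, 5]]
def dsP3_19 : List (List ℕ) := [[0], [2], [4], [0, 2], [0, 4], [0, 5], [2, 4], [0, 5, 3], [1, 2, 5], [2, 5]]
def dsP3_20 : List (List ℕ) := [[0], [2], [4], [0, 2], [0, 4], [0, 5], [2, 4], [0, 5, 3], [1, 2, 5], [4, 3, 1]]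
def dsP3_21 : List (List ℕ) := [[0], [2], [4], [0, 2], [0, 4], [0, 5], [2, 4], [0, 5, 3], [1, 2, 5], [4, 3, 1], [0, 4, 2]]
def dsP3_22 : List (List ℕ) := [[0], [2], [4], [0, 2], [0, 4], [0, 5], [2, 4], [0, 5, 3], [1, 2, 5], [4, 3, 1], [0, 4, 2], [0, 3, 0, 5]]
def dsP3_23 : List (List ℕ) := [[0], [2], [4], [0, 2], [0, 4], [0, 5], [2, 4], [0, 5, 3], [1, 2, 5], [4, 3, 1], [0, 4, 2], [0, 4, 1, 2]]
def dsP3_24 : List (List ℕ) := [[0], [2], [4], [0, 2], [0, 4], [0, 5], [2, 4], [0, 5, 3], [1, 2, 5], [4, 3, 1], [0, 3, 5]]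
def dsP3_25 : List (List ℕ) := [[0], [2], [4], [0, 2], [0, 4], [0, 5], [2, 4], [0, 5, 3], [1, 2, 5], [4, 3, 1], [0, 3, 5], [0, 3]]
def dsP3_26 : List (List ℕ) := [[0], [2], [4], [0, 2], [0, 4], [0, 5], [2, 4], [0, 5, 3], [1, 2, 5], [4, 3, 1], [0, 3, 5], [2, 1, 5]]

theorem okP3_26 : OK goalsP3 dsP3_26 :=
  .leaf _ [[0, 0, 0], [2, 2, 2], [4, 4, 4], [0, 2, 0, 2, 0, 2], [0, 4, 0, 4, 0, 4], [0, 5, 0, 5, 0, 5], [2, 4, 2, 4, 2, 4], [0, 5, 3, 0, 5, 3, 0, 5, 3], [1, 2, 5, 1, 2, 5, 1, 2, 5], [4, 3, 1, 4, 3, 1, 4, 3, 1], [0, 3, 5, 0, 3, 5, 0, 3, 5], [2, 1, 5, 2, 1, 5, 2, 1, 5]]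
    [433120042190347214843912837073124483666218422806652074852353]
    [140] 2 [0, 3, 4] (by decide +kernel) rfl (by decide +kernel)
theorem okP3_25 : OK goalsP3 dsP3_25 :=
  .leaf _ [[0, 0, 0], [2, 2, 2], [4, 4, 4], [0, 2, 0, 2, 0, 2], [0, 4, 0, 4, 0, 4], [0, 5, 0, 5, 0, 5], [2, 4, 2, 4, 2, 4], [0, 5, 3, 0, 5, 3, 0, 5, 3], [1, 2, 5, 1, 2, 5, 1, 2, 5], [4, 3, 1, 4, 3, 1, 4, 3, 1], [0, 3, 5, 0, 3, 5, 0, 3, 5], [0, 3, 0, 3, 0, 3]]
    [58486034429065793604756956664156913665]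
    [12] 0 [0, 3] (by decide +kernel) rfl (by decide +kernel)
theorem okP3_24 : OK goalsP3 dsP3_24 :=
  .node _ dsP3_25 dsP3_26 [] [4] [0, 3] [0, 3, 5] [] [4] (by decide +kernel) (by decide +kernel)
    (by decide +kernel) okP3_25 okP3_26
theorem okP3_23 : OK goalsP3 dsP3_23 :=
  .leaf _ [[0, 0, 0], [2, 2, 2], [4, 4, 4], [0, 2, 0, 2, 0, 2], [0, 4, 0, 4, 0, 4], [0, 5, 0, 5, 0, 5], [2, 4, 2, 4, 2, 4], [0, 5, 3, 0, 5, 3, 0, 5, 3], [1, 2, 5, 1, 2, 5, 1, 2, 5], [4, 3, 1, 4, 3, 1, 4, 3, 1], [0, 4, 2, 0, 4, 2, 0, 4, 2], [0, 4, 1, 2, 0, 4, 1, 2, 0, 4, 1, 2]]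
    [3568430004053104646134478401105546948592002441335862892727374807594086130370288242520121171420600903979435796480251998492768036708100132199098716159299871129674351345406738381082452305594056811336861927680608298095510164220561850898092916737]
    [546558269213911483456099854740874312226497575483358995579916151873251142971050282318823432] 0 [0, 3] (by decide +kernel) rfl (by decide +kernel)
theorem okP3_22 : OK goalsP3 dsP3_22 :=
  .leaf _ [[0, 0, 0], [2, 2, 2], [4, 4, 4], [0, 2, 0, 2, 0, 2], [0, 4, 0, 4, 0, 4], [0, 5, 0, 5, 0, 5], [2, 4, 2, 4, 2, 4], [0, 5, 3, 0, 5, 3, 0, 5, 3], [1, 2, 5, 1, 2, 5, 1, 2, 5], [4, 3, 1, 4, 3, 1, 4, 3, 1], [0, 4, 2, 0, 4, 2, 0, 4, 2], [0, 3, 0, 5, 0, 3, 0, 5, 0, 3, 0, 5]]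
    [268371009552212827311793115310498150757692751670678721179353974550074000940898950882370888941869602670839668145011148526473195450674143420890052804516571705366041457925683219076968898843442384994898076965401103568629591685103383639307325818071522268480176896373009252933280051253425996578965674738594130201484660674900271920863276409871135018313174317838956757927664834276276965379507274656169989619087026526773463964805234688001, 52057653821167638236263332972000855453973438659678441495117409074812115675175144745692017894991665068050657153307393538047630484360809110194290314524870325470505829773271319154057949224380819622054139862402486603095603631247723782968236276286931673368064818142371833488147355235587917212019033565560412359390798129039517322725146488013821358725136557]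
    [32888833362733380028029476520189828278126062093495347786314321220225090599411238713371034674699952834103071247862695788925238960113772496101415151951587613258652736138128042638033615819860103373970742882895884747358825191610295924848929042814375693449260142270023555077366413819451362166776628794429644311686282328822916518447604519721815026713045564777173354359580779193651167235] 2 [0, 3, 4] (by decide +kernel) rfl (by decide +kernel)
theorem okP3_21 : OK goalsP3 dsP3_21 :=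
  .node _ dsP3_22 dsP3_23 [] [0] [0, 5] [0, 5, 3] [] [] (by decide +kernel) (by decide +kernel)
    (by decide +kernel) okP3_22 okP3_23
theorem okP3_20 : OK goalsP3 dsP3_20 :=
  .node _ dsP3_21 dsP3_24 [] [0] [2] [2, 4] [] [] (by decide +kernel) (by decide +kernel)
    (by decide +kernel) okP3_21 okP3_24
theorem okP3_19 : OK goalsP3 dsP3_19 :=
  .leaf _ [[0, 0, 0], [2, 2, 2], [4, 4, 4], [0, 2, 0, 2, 0, 2], [0, 4, 0, 4, 0, 4], [0, 5, 0, 5, 0, 5], [2, 4, 2, 4, 2, 4], [0, 5, 3, 0, 5, 3, 0, 5, 3], [1, 2, 5, 1, 2, 5, 1, 2, 5], [2, 5, 2, 5, 2, 5]]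
    [61144490579091959823826774661082906627]
    [10] 1 [2, 5] (by decide +kernel) rfl (by decide +kernel)
theorem okP3_18 : OK goalsP3 dsP3_18 :=
  .node _ dsP3_19 dsP3_20 [] [0] [] [1, 2, 5] [] [0] (by decide +kernel) (by decide +kernel)
    (by decide +kernel) okP3_19 okP3_20
theorem okP3_17 : OK goalsP3 dsP3_17 :=
  .leaf _ [[0, 0, 0], [2, 2, 2], [4, 4, 4], [0, 2, 0, 2, 0, 2], [0, 4, 0, 4, 0, 4], [0, 5, 0, 5, 0, 5], [2, 4, 2, 4, 2, 4], [0, 5, 3, 0, 5, 3, 0, 5, 3], [3, 0, 3, 0, 3, 0]]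
    [58486034429065793604756956664156913665]
    [73] 0 [0, 3] (by decide +kernel) rfl (by decide +kernel)
theorem okP3_16 : OK goalsP3 dsP3_16 :=
  .node _ dsP3_17 dsP3_18 [] [4] [0] [0, 5, 3] [] [4] (by decide +kernel) (by decide +kernel)
    (by decide +kernel) okP3_17 okP3_18
theorem okP3_15 : OK goalsP3 dsP3_15 :=
  .leaf _ [[0, 0, 0], [2, 2, 2], [4, 4, 4], [0, 2, 0, 2, 0, 2], [0, 4, 0, 4, 0, 4], [0, 5, 0, 5, 0, 5], [2, 4, 2, 4, 2, 4], [0, 2, 4, 0, 2, 4, 0, 2, 4], [0, 3, 5, 0, 3, 5, 0, 3, 5], [2, 1, 5, 2, 1, 5, 2, 1, 5]]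
    [433120042190347214843912837073124483666218422806652074852353]
    [138] 2 [0, 3, 4] (by decide +kernel) rfl (by decide +kernel)
theorem okP3_14 : OK goalsP3 dsP3_14 :=
  .leaf _ [[0, 0, 0], [2, 2, 2], [4, 4, 4], [0, 2, 0, 2, 0, 2], [0, 4, 0, 4, 0, 4], [0, 5, 0, 5, 0, 5], [2, 4, 2, 4, 2, 4], [0, 2, 4, 0, 2, 4, 0, 2, 4], [0, 3, 5, 0, 3, 5, 0, 3, 5], [0, 3, 0, 3, 0, 3]]
    [58486034429065793604756956664156913665]
    [10] 0 [0, 3] (by decide +kernel) rfl (by decide +kernel)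
theorem okP3_13 : OK goalsP3 dsP3_13 :=
  .node _ dsP3_14 dsP3_15 [] [4] [0, 3] [0, 3, 5] [] [4] (by decide +kernel) (by decide +kernel)
    (by decide +kernel) okP3_14 okP3_15
theorem okP3_12 : OK goalsP3 dsP3_12 :=
  .leaf _ [[0, 0, 0], [2, 2, 2], [4, 4, 4], [0, 2, 0, 2, 0, 2], [0, 4, 0, 4, 0, 4], [0, 5, 0, 5, 0, 5], [2, 4, 2, 4, 2, 4], [0, 2, 4, 0, 2, 4, 0, 2, 4], [0, 4, 2, 0, 4, 2, 0, 4, 2], [2, 1, 4, 2, 1, 4, 2, 1, 4], [0, 3, 0, 3, 0, 3]]
    [58486034429065793604756956664156913665]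
    [11] 0 [0, 3] (by decide +kernel) rfl (by decide +kernel)
theorem okP3_11 : OK goalsP3 dsP3_11 :=
  .leaf _ [[0, 0, 0], [2, 2, 2], [4, 4, 4], [0, 2, 0, 2, 0, 2], [0, 4, 0, 4, 0, 4], [0, 5, 0, 5, 0, 5], [2, 4, 2, 4, 2, 4], [0, 2, 4, 0, 2, 4, 0, 2, 4], [0, 4, 2, 0, 4, 2, 0, 4, 2], [2, 1, 4, 2, 1, 4, 2, 1, 4], [5, 2, 1, 5, 2, 1, 5, 2, 1]]
    [433120042190347214843912837073124483666218422806652074852353]
    [11] 2 [0, 3, 4] (by decide +kernel) rfl (by decide +kernel)
theorem okP3_10 : OK goalsP3 dsP3_10 :=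
  .node _ dsP3_11 dsP3_12 [] [4] [2, 1] [2, 1, 4] [] [4] (by decide +kernel) (by decide +kernel)
    (by decide +kernel) okP3_11 okP3_12
theorem okP3_9 : OK goalsP3 dsP3_9 :=
  .leaf _ [[0, 0, 0], [2, 2, 2], [4, 4, 4], [0, 2, 0, 2, 0, 2], [0, 4, 0, 4, 0, 4], [0, 5, 0, 5, 0, 5], [2, 4, 2, 4, 2, 4], [0, 2, 4, 0, 2, 4, 0, 2, 4], [0, 4, 2, 0, 4, 2, 0, 4, 2], [2, 5, 0, 2, 5, 0, 2, 5, 0], [4, 3, 4, 3, 4, 3]]
    [111503787137143694799638415190016468612808707]
    [11] 1 [2, 5] (by decide +kernel) rfl (by decide +kernel)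
theorem okP3_8 : OK goalsP3 dsP3_8 :=
  .leaf _ [[0, 0, 0], [2, 2, 2], [4, 4, 4], [0, 2, 0, 2, 0, 2], [0, 4, 0, 4, 0, 4], [0, 5, 0, 5, 0, 5], [2, 4, 2, 4, 2, 4], [0, 2, 4, 0, 2, 4, 0, 2, 4], [0, 4, 2, 0, 4, 2, 0, 4, 2], [2, 5, 0, 2, 5, 0, 2, 5, 0], [2, 5, 1, 2, 5, 1, 2, 5, 1], [0, 3, 1, 5, 0, 3, 1, 5, 0, 3, 1, 5], [0, 3, 1, 4, 0, 3, 1, 4, 0, 3, 1, 4]]
    [852259242300200316650061215108379175397190931092485229540357407254210879668695147592120822485048230390305213621951190220146618307209340634494124008771008683406145090676516389675717181255203694319812495765938046487438219601660925634963051071202791534629377725449478107249353948129453515824695966349699861565573790455791252603241922203583227044499347636816456941118987353803333676867851009113095808671672105897325551818797047873537, 1728091709339804184113452736477078237372691474376073621371046029661272098077067237014213047765452595657217103825360675185756712305564358450614181024588563908054024342383289133508076371118000022820125020173321321555807118741072010514418833696802475613436277529561340442260773341965274319605885138239077384590490347445751703819052321359918923314248931916451155918503382803622556244209662258735416257224844553678228862626612908130785,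 526665338571807343708221388784481780555943639322297111065045356749724153235041436175434691]
    [399638839316515716552590530126236329832667898437205177377722171723088029881856229207630092896088404250868577055989115036761364416271027949163164085911104911004508544342930929560991563546323440989808374331995773964449377391609327300837000277280256000286073817924691860699923897386226277472298063647537990094372159856887307085789300066005540039605354499] 0 [0, 3] (by decide +kernel) rfl (by decide +kernel)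
theorem okP3_7 : OK goalsP3 dsP3_7 :=
  .leaf _ [[0, 0, 0], [2, 2, 2], [4, 4, 4], [0, 2, 0, 2, 0, 2], [0, 4, 0, 4, 0, 4], [0, 5, 0, 5, 0, 5], [2, 4, 2, 4, 2, 4], [0, 2, 4, 0, 2, 4, 0, 2, 4], [0, 4, 2, 0, 4, 2, 0, 4, 2], [2, 5, 0, 2, 5, 0, 2, 5, 0], [2, 5, 1, 2, 5, 1, 2, 5, 1], [0, 3, 1, 5, 0, 3, 1, 5, 0, 3, 1, 5], [0, 5, 0, 2, 0, 5, 0, 2, 0, 5, 0, 2]]
    [2976295646469924593583510660671046086065082757176750043487965103934739172796314854544504127059631825869809605560364886187502002478661511837649678262163342673969359412178975740560835526283089368223280821032488451907245402062628152259527689691101439837760177423491898195411371141562742764203995384765070537756052878741054029204607800851828130150394096665534846682018309600507694274103614853768494740817383597231046657]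
    [160946078218612236219614751849279830892186208456625049232824585861395802723694859254529136840993057444066509454086330142396851890264984145604786195441647619] 0 [0, 3] (by decide +kernel) rfl (by decide +kernel)
theorem okP3_6 : OK goalsP3 dsP3_6 :=
  .node _ dsP3_7 dsP3_8 [] [0] [2] [2, 5, 0] [] [] (by decide +kernel) (by decide +kernel)
    (by decide +kernel) okP3_7 okP3_8
theorem okP3_5 : OK goalsP3 dsP3_5 :=
  .leaf _ [[0, 0, 0], [2, 2, 2], [4, 4, 4], [0, 2, 0, 2, 0, 2], [0, 4, 0, 4, 0, 4], [0, 5, 0, 5, 0, 5], [2, 4, 2, 4, 2, 4], [0, 2, 4, 0, 2, 4, 0, 2, 4], [0, 4, 2, 0, 4, 2, 0, 4, 2], [2, 5, 0, 2, 5, 0, 2, 5, 0], [2, 5, 1, 2, 5, 1, 2, 5, 1], [0, 4, 0, 2, 0, 4, 0, 2, 0, 4, 0, 2]]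
    [7006624753494536060918905771786200540623420698505259473671278144047594967979803495796752948657609226854128993257324548446960374879325487985144078584626430402340432460030697074334163566712359068461436392882006940741956473242689926382495989761]
    [9178069838547009217833092667115907546317730453123378022390104413020302453192441970900477585391619] 0 [0, 3] (by decide +kernel) rfl (by decide +kernel)
theorem okP3_4 : OK goalsP3 dsP3_4 :=
  .node _ dsP3_5 dsP3_6 [] [0] [0, 2] [0, 2, 4] [] [] (by decide +kernel) (by decide +kernel)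
    (by decide +kernel) okP3_5 okP3_6
theorem okP3_3 : OK goalsP3 dsP3_3 :=
  .node _ dsP3_4 dsP3_9 [] [0] [] [2, 5, 0] [0] [] (by decide +kernel) (by decide +kernel)
    (by decide +kernel) okP3_4 okP3_9
theorem okP3_2 : OK goalsP3 dsP3_2 :=
  .node _ dsP3_3 dsP3_10 [] [2] [0] [0, 5] [] [] (by decide +kernel) (by decide +kernel)
    (by decide +kernel) okP3_3 okP3_10
theorem okP3_1 : OK goalsP3 dsP3_1 :=
  .node _ dsP3_2 dsP3_13 [] [0] [2] [2, 4] [] [] (by decide +kernel) (by decide +kernel)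
    (by decide +kernel) okP3_2 okP3_13
theorem okP3_0 : OK goalsP3 dsP3 :=
  .node _ dsP3_1 dsP3_16 [] [0] [] [2, 4] [] [] (by decide +kernel) (by decide +kernel)
    (by decide +kernel) okP3_1 okP3_16

end H309.Burn
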