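import Pool.Agent.H309.Burn.CertF1
import Pool.Agent.H309.Burn.CertP1
import Pool.Agent.H309.Burn.CertP2
import Pool.Agent.H309.Burn.CertP3
import Pool.Agent.H309.Burn.CertP5

/-!
The five facts on three elements of trivial cube which the case trees prove.
-/

namespace H309.Burn

open H15.TC

variable {G : Type*} [Group G]

theorem claimF1 (hT : HH G) {a b c : G} (ha : a ^ 3 = 1) (hb : b ^ 3 = 1) (hc : c ^ 3 = 1)
    (h1 : (a * b) ^ 3 = 1) (h2 : (a * c) ^ 3 = 1) (h3 : (b * c⁻¹) ^ 3 = 1) :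
    (a * b⁻¹) ^ 3 = 1 ∨ (a * c⁻¹) ^ 3 = 1 ∨ (b * c) ^ 3 = 1 := by
  obtain ⟨g, hg, hg1⟩ := ok_sound (gen := gen3 a b c) (gen3_cube ha hb hc) hT okF1_0 (by
    intro w hw
    simp only [dsF1, List.mem_cons, List.not_mem_nil, or_false] at hw
    rcases hw with rfl | rfl | rfl | rfl | rfl | rfl <;>
      simpa [ev, lv, gen3])
  simp only [goalsF1, List.mem_cons, List.not_mem_nil, or_false] at hg
  rcases hg with rfl | rfl | rfl
  · left; simpa [ev, lv, gen3] using hg1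
  · right; left; simpa [ev, lv, gen3] using hg1
  · right; right; simpa [ev, lv, gen3] using hg1

theorem claimP1 (hT : HH G) {a b c : G} (ha : a ^ 3 = 1) (hb : b ^ 3 = 1) (hc : c ^ 3 = 1)
    (h1 : (a * b) ^ 3 = 1) (h2 : (a * c) ^ 3 = 1) (h3 : (b * c) ^ 3 = 1) :
    (a * b⁻¹) ^ 3 = 1 ∨ (a * c⁻¹) ^ 3 = 1 ∨ (b * c⁻¹) ^ 3 = 1 ∨ (a * b⁻¹ * c) ^ 3 = 1 := by
  obtain ⟨g, hg, hg1⟩ := ok_sound (gen := gen3 a b c) (gen3_cube ha hb hc) hT okP1_0 (by
    intro w hw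
    simp only [dsP1, List.mem_cons, List.not_mem_nil, or_false] at hw
    rcases hw with rfl | rfl | rfl | rfl | rfl | rfl <;>
      simpa [ev, lv, gen3])
  simp only [goalsP1, List.mem_cons, List.not_mem_nil, or_false] at hg
  rcases hg with rfl | rfl | rfl | rfl
  · left; simpa [ev, lv, gen3] using hg1
  · right; left; simpa [ev, lv, gen3] using hg1
  · right; right; left; simpa [ev, lv, gen3] using hg1
  · right; right; right; simpa [ev, lv, gen3, mul_assoc] using hg1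

theorem claimP2 (hT : HH G) {a b c : G} (ha : a ^ 3 = 1) (hb : b ^ 3 = 1) (hc : c ^ 3 = 1)
    (h1 : (a * b) ^ 3 = 1) (h2 : (a * c) ^ 3 = 1) (h3 : (b * c) ^ 3 = 1)
    (h4 : (b * c⁻¹) ^ 3 = 1) :
    (a * b⁻¹) ^ 3 = 1 ∨ (a * c⁻¹) ^ 3 = 1 ∨ (a * b⁻¹ * c) ^ 3 = 1 := by
  obtain ⟨g, hg, hg1⟩ := ok_sound (gen := gen3 a b c) (gen3_cube ha hb hc) hT okP2_0 (by
    intro w hw
    simp only [dsP2, List.mem_cons, List.not_mem_nil, or_false] at hw
    rcases hw with rfl | rfl | rfl | rfl | rfl | rfl | rfl <;>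
      simpa [ev, lv, gen3])
  simp only [goalsP2, List.mem_cons, List.not_mem_nil, or_false] at hg
  rcases hg with rfl | rfl | rfl
  · left; simpa [ev, lv, gen3] using hg1
  · right; left; simpa [ev, lv, gen3] using hg1
  · right; right; simpa [ev, lv, gen3, mul_assoc] using hg1

theorem claimP3 (hT : HH G) {a b c : G} (ha : a ^ 3 = 1) (hb : b ^ 3 = 1) (hc : c ^ 3 = 1)
    (h1 : (a * b) ^ 3 = 1) (h2 : (a * c) ^ 3 = 1) (h3 : (a * c⁻¹) ^ 3 = 1)
    (h4 : (b * c) ^ 3 = 1) :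
    (a * b⁻¹) ^ 3 = 1 ∨ (b * c⁻¹) ^ 3 = 1 ∨ (a * b⁻¹ * c) ^ 3 = 1 := by
  obtain ⟨g, hg, hg1⟩ := ok_sound (gen := gen3 a b c) (gen3_cube ha hb hc) hT okP3_0 (by
    intro w hw
    simp only [dsP3, List.mem_cons, List.not_mem_nil, or_false] at hw
    rcases hw with rfl | rfl | rfl | rfl | rfl | rfl | rfl <;>
      simpa [ev, lv, gen3])
  simp only [goalsP3, List.mem_cons, List.not_mem_nil, or_false] at hg
  rcases hg with rfl | rfl | rfl
  · left; simpa [ev, lv, gen3] using hg1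
  · right; left; simpa [ev, lv, gen3] using hg1
  · right; right; simpa [ev, lv, gen3, mul_assoc] using hg1

theorem claimP5 (hT : HH G) {a b c : G} (ha : a ^ 3 = 1) (hb : b ^ 3 = 1) (hc : c ^ 3 = 1)
    (h0 : (b * c) ^ 3 = 1) (h1 : (a * b) ^ 3 = 1) (h2 : (a * b⁻¹) ^ 3 = 1)
    (h3 : (a * c) ^ 3 = 1) (h4 : (a * c⁻¹) ^ 3 = 1)
    (h5 : (a * c * b) ^ 3 = 1) (h6 : (a * c * b⁻¹) ^ 3 = 1) :
    (b * c⁻¹) ^ 3 = 1 := by
  rw [mul_assoc] at h5 h6
  obtain ⟨g, hg, hg1⟩ := ok_sound (gen := gen3 a b c) (gen3_cube ha hb hc) hT okP5_0 (by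
    intro w hw
    simp only [dsP5, List.mem_cons, List.not_mem_nil, or_false] at hw
    rcases hw with rfl | rfl | rfl | rfl | rfl | rfl | rfl | rfl | rfl | rfl <;>
      simpa [ev, lv, gen3, mul_assoc] using (by assumption))
  simp only [goalsP5, List.mem_cons, List.not_mem_nil, or_false] at hg
  subst hg
  simpa [ev, lv, gen3] using hg1

end H309.Burn
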