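import Pool.Agent.H15R2.Main

/-!
Locally finite groups: extensions, products of normal subgroups, and groups with a splitting
automorphism of order 3.
-/

universe u

namespace H309.Burn

open Subgroup
open scoped commutatorElement

/-- locally finite -/
def LF (G : Type u) [Group G] : Prop := ∀ F : Subgroup G, F.FG → Finite F

variable {G : Type u} [Group G]

theorem fg_map {H : Type u} [Group H] {F : Subgroup G} (hF : F.FG) (f : G →* H) :
    (F.map f).FG := by
  classical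
  obtain ⟨S, hS⟩ := hF
  refine ⟨S.image f, ?_⟩
  rw [← hS, MonoidHom.map_closure, Finset.coe_image]

theorem LF.finite_of_fg (h : LF G) (hG : Group.FG G) : Finite G := by
  have h1 : Finite (⊤ : Subgroup G) := h ⊤ (Group.fg_def.mp hG)
  exact Finite.of_equiv _ (Subgroup.topEquiv (G := G)).toEquiv

theorem lf_exp3 (h : ∀ g : G, g ^ 3 = 1) : LF G := by
  intro F hF
  refine H15.Struct.finite_exp3 ((Group.fg_iff_subgroup_fg F).mpr hF) ?_
  intro g; ext; exact_mod_cast h g

theorem lf_finite [Finite G] : LF G := fun _ _ => inferInstance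

theorem lf_comm (hc : ∀ x y : G, x * y = y * x) (ht : ∀ g : G, IsOfFinOrder g) : LF G := by
  intro F hF
  have hFG : Group.FG F := (Group.fg_iff_subgroup_fg F).mpr hF
  letI : CommGroup F :=
    { (inferInstance : Group F) with mul_comm := fun x y => by ext; exact hc x y }
  refine CommGroup.finite_of_fg_isMulTorsion F ?_
  intro g
  exact Submonoid.isOfFinOrder_coe.mp (ht g)

theorem LF.subgroup (h : LF G) (H : Subgroup G) : LF H := by
  intro F hF
  have h1 : Finite (F.map H.subtype) := h _ (fg_map hF _)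
  exact Finite.of_equiv _ (F.equivMapOfInjective H.subtype H.subtype_injective).symm.toEquiv

theorem LF.surj {H : Type u} [Group H] (h : LF G) (f : G →* H) (hf : Function.Surjective f) :
    LF H := by
  intro F hF
  obtain ⟨S, hS⟩ := hF
  classical
  choose g hg using hf
  have h1 : Finite (closure ((S.image g : Finset G) : Set G)) := h _ ⟨_, rfl⟩
  have h2 : (closure ((S.image g : Finset G) : Set G)).map f = F := by
    rw [MonoidHom.map_closure, ← hS]
    congr 1
    ext x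
    simp [hg]
  rw [← h2]
  exact Finite.of_surjective (fun x : closure ((S.image g : Finset G) : Set G) =>
    (⟨f x, mem_map_of_mem f x.2⟩ : (closure ((S.image g : Finset G) : Set G)).map f)) (by
      rintro ⟨_, x, hx, rfl⟩
      exact ⟨⟨x, hx⟩, rfl⟩)

theorem LF.of_le {H K : Subgroup G} (h : LF K) (hHK : H ≤ K) : LF H := by
  have h1 := h.subgroup (H.subgroupOf K)
  exact h1.surj (subgroupOfEquivOfLe hHK).toMonoidHom (subgroupOfEquivOfLe hHK).surjective

/-- extensions of locally finite groups are locally finite -/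
theorem lf_ext (N : Subgroup G) [N.Normal] (h1 : LF N) (h2 : LF (G ⧸ N)) : LF G := by
  intro F hF
  have hFG : Group.FG F := (Group.fg_iff_subgroup_fg F).mpr hF
  have h3 : Finite (F.map (QuotientGroup.mk' N)) := h2 _ (fg_map hF _)
  -- the kernel of `F → G ⧸ N`
  let f : F →* F.map (QuotientGroup.mk' N) :=
    ((QuotientGroup.mk' N).comp F.subtype).codRestrict _ (fun x => mem_map_of_mem _ x.2)
  have hker : f.ker.FiniteIndex := finiteIndex_ker f
  have h4 : f.ker.FG := (Group.fg_iff_subgroup_fg _).mp (fg_of_index_ne_zero f.ker)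
  have h5 : (f.ker.map F.subtype) ≤ N := by
    rintro _ ⟨x, hx, rfl⟩
    have h6 : f x = 1 := hx
    have h7 : (QuotientGroup.mk' N) (x : G) = 1 := congrArg Subtype.val h6
    exact (QuotientGroup.eq_one_iff _).mp h7
  have h8 : Finite ((f.ker.map F.subtype).subgroupOf N) := by
    refine h1 _ ?_
    have h9 : (f.ker.map F.subtype).FG := fg_map h4 _
    have h10 : Group.FG (f.ker.map F.subtype) := (Group.fg_iff_subgroup_fg _).mpr h9
    have h11 : Group.FG ((f.ker.map F.subtype).subgroupOf N) :=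
      Group.fg_of_surjective (f := (subgroupOfEquivOfLe h5).symm.toMonoidHom)
        (subgroupOfEquivOfLe h5).symm.surjective
    exact (Group.fg_iff_subgroup_fg _).mp h11
  have h12 : Finite (f.ker.map F.subtype) :=
    Finite.of_equiv _ (subgroupOfEquivOfLe h5).toEquiv
  have h13 : Finite f.ker :=
    Finite.of_equiv _ (f.ker.equivMapOfInjective F.subtype F.subtype_injective).symm.toEquiv
  exact H15.Struct.finite_of_index f.ker hker.index_ne_zero h13

/-- the product of a normal locally finite subgroup and a locally finite subgroup -/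
theorem lf_sup (N A : Subgroup G) [N.Normal] (h1 : LF N) (h2 : LF A) :
    LF (N ⊔ A : Subgroup G) := by
  have hN : LF (N.subgroupOf (N ⊔ A)) :=
    h1.surj (subgroupOfEquivOfLe (le_sup_left : N ≤ N ⊔ A)).symm.toMonoidHom
      (subgroupOfEquivOfLe le_sup_left).symm.surjective
  refine lf_ext (N.subgroupOf (N ⊔ A)) hN ?_
  let f : A →* (N ⊔ A : Subgroup G) ⧸ (N.subgroupOf (N ⊔ A)) :=
    (QuotientGroup.mk' _).comp (inclusion le_sup_right)
  refine h2.surj f ?_
  intro x
  obtain ⟨⟨x, hx⟩, rfl⟩ := QuotientGroup.mk'_surjective _ x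
  obtain ⟨n, hn, y, hy, rfl⟩ := mem_sup_of_normal_left.mp hx
  refine ⟨⟨y, hy⟩, ?_⟩
  show QuotientGroup.mk' _ _ = QuotientGroup.mk' _ _
  rw [QuotientGroup.mk'_eq_mk']
  refine ⟨⟨y⁻¹ * n * y, ?_⟩, ?_, ?_⟩
  · refine mem_sup_left ?_
    have := (inferInstance : N.Normal).conj_mem n hn y⁻¹
    simpa using this
  · rw [mem_subgroupOf]
    have := (inferInstance : N.Normal).conj_mem n hn y⁻¹
    simpa using this
  · ext
    show y * (y⁻¹ * n * y) = n * y
    group

theorem lf_bot : LF (⊥ : Subgroup G) := lf_finite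

/-- a group generated by elements which lie in normal locally finite subgroups -/
theorem lf_of_rad (S : Set G) (hS : closure S = ⊤)
    (h : ∀ g ∈ S, ∃ N : Subgroup G, N.Normal ∧ LF N ∧ g ∈ N) : LF G := by
  have h1 : ∀ g : G, ∃ N : Subgroup G, N.Normal ∧ LF N ∧ g ∈ N := by
    intro g
    have hg : g ∈ closure S := by rw [hS]; trivial
    induction hg using closure_induction with
    | mem x hx => exact h x hx
    | one => exact ⟨⊥, inferInstance, lf_bot, one_mem _⟩
    | mul x y _ _ hx hy =>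
      obtain ⟨N, hN, hN1, hN2⟩ := hx
      obtain ⟨M, hM, hM1, hM2⟩ := hy
      exact ⟨N ⊔ M, inferInstance, lf_sup N M hN1 hM1,
        mul_mem (mem_sup_left hN2) (mem_sup_right hM2)⟩
    | inv x _ hx =>
      obtain ⟨N, hN, hN1, hN2⟩ := hx
      exact ⟨N, hN, hN1, inv_mem hN2⟩
  have h2 : ∀ T : Finset G, ∃ N : Subgroup G, N.Normal ∧ LF N ∧ (T : Set G) ⊆ N := by
    classical
    intro T
    induction T using Finset.induction_on with
    | empty => exact ⟨⊥, inferInstance, lf_bot, by simp⟩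
    | insert a T _ ih =>
      obtain ⟨N, hN, hN1, hN2⟩ := ih
      obtain ⟨M, hM, hM1, hM2⟩ := h1 a
      refine ⟨N ⊔ M, inferInstance, lf_sup N M hN1 hM1, ?_⟩
      rw [Finset.coe_insert, Set.insert_subset_iff]
      exact ⟨mem_sup_right hM2, fun x hx => mem_sup_left (hN2 hx)⟩
  intro F hF
  obtain ⟨T, hT⟩ := hF
  obtain ⟨N, hN, hN1, hN2⟩ := h2 T
  have h3 : F ≤ N := by rw [← hT, closure_le]; exact hN2
  have h4 : LF F := hN1.of_le h3
  exact h4.finite_of_fg ((Group.fg_iff_subgroup_fg F).mpr ⟨T, hT⟩)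

section splitting

variable (φ : G ≃* G) (h3 : ∀ x, φ (φ (φ x)) = x) (hs : ∀ x, x * φ x * φ (φ x) = 1)

include h3 hs

theorem sp_comm (x : G) : φ x * x = x * φ x := by
  -- `φ (φ x) = (x φ x)⁻¹`
  have h1 := hs x
  have h2 : φ (φ x) = (x * φ x)⁻¹ := eq_inv_of_mul_eq_one_right h1
  have h4 := hs (φ x)
  rw [h3] at h4
  have h5 : φ x * φ (φ x) = x⁻¹ := eq_inv_of_mul_eq_one_left h4
  have h6 : x * x⁻¹ = 1 := mul_inv_cancel x
  -- x * φ x * φφx = 1 gives φφx = (φ x)⁻¹ x⁻¹ ; φ x * φφ x = x⁻¹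
  rw [h2, mul_inv_rev] at h5
  -- φ x * ((φ x)⁻¹ * x⁻¹) = x⁻¹ : trivial; use inverse elements instead
  have h7 := hs x⁻¹
  simp only [map_inv] at h7
  have h8 : x⁻¹ * (φ x)⁻¹ = φ (φ x) := by
    rw [← mul_inv_eq_one]; exact h7
  rw [h2, ← mul_inv_rev, inv_inj] at h8
  exact h8

/-- the fundamental identity -/
theorem sp_star (x y : G) : y * φ y * (x * φ x) = x * y * (φ x * φ y) := by
  have h1 : ∀ z, z * φ z = (φ (φ z))⁻¹ := fun z => eq_inv_of_mul_eq_one_left (hs z)
  have h2 := h1 (x * y)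
  rw [map_mul, map_mul, mul_inv_rev, ← h1 x, ← h1 y] at h2
  exact h2.symm

theorem sp_A (x y : G) :
    (φ (φ x))⁻¹ * φ y * φ (φ x) * (φ y)⁻¹ = x * y⁻¹ * x⁻¹ * y := by
  have h1 : x * φ x = (φ (φ x))⁻¹ := eq_inv_of_mul_eq_one_left (hs x)
  have h2 := sp_star φ h3 hs x y
  have h4 := sp_comm φ h3 hs x
  -- φ y * (x φ x) = y⁻¹ x y φ x φ y
  have h5 : φ y * (x * φ x) * (φ y)⁻¹ = y⁻¹ * x * y * φ x := by
    have : φ y * (x * φ x) = y⁻¹ * (y * φ y * (x * φ x)) := by group
    rw [this, h2]; group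
  rw [h1] at h5
  have h6 : φ y * φ (φ x) * (φ y)⁻¹ = (φ x)⁻¹ * (y⁻¹ * x * y)⁻¹ := by
    have h7 := congrArg (·⁻¹) h5
    simp only [mul_inv_rev, inv_inv] at h7
    rw [mul_assoc]
    rw [h7]
    group
  have h8 : (φ (φ x))⁻¹ * φ y * φ (φ x) * (φ y)⁻¹ =
      (φ (φ x))⁻¹ * (φ y * φ (φ x) * (φ y)⁻¹) := by group
  rw [h8, h6, ← h1]
  have h9 : x * φ x * ((φ x)⁻¹ * (y⁻¹ * x * y)⁻¹) = x * (y⁻¹ * x * y)⁻¹ := by group
  rw [h9]; group

theorem sp_F (x y : G) :
    x⁻¹ * (φ (φ y))⁻¹ * x * φ (φ y) = (φ (φ x))⁻¹ * y⁻¹ * φ (φ x) * y := by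
  have hA := sp_A φ h3 hs
  have h1 := hA (φ (φ x⁻¹)) y
  have h2 := hA (φ x⁻¹)⁻¹ (φ y)⁻¹
  simp only [map_inv, inv_inv, h3] at h1 h2
  rw [← h2] at h1
  exact h1

/-- `[φ x, y] = [x, φ y]` -/
theorem sp_E (x y : G) : (φ x)⁻¹ * y⁻¹ * φ x * y = x⁻¹ * (φ y)⁻¹ * x * φ y := by
  have h1 := sp_F φ h3 hs (φ (φ x)) y
  have h2 := sp_F φ h3 hs x (φ (φ y))
  rw [h3] at h1 h2
  rw [← h1, h2]

theorem sp_G0 (x y z : G) : (φ z)⁻¹ * (x⁻¹ * (φ y)⁻¹ * x * φ y) * φ z =
    z⁻¹ * (x⁻¹ * (φ y)⁻¹ * x * φ y) * z := by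
  have hE := sp_E φ h3 hs
  have h1 := hE (x * z) y
  rw [map_mul] at h1
  have h2 : (φ x * φ z)⁻¹ * y⁻¹ * (φ x * φ z) * y =
      (φ z)⁻¹ * ((φ x)⁻¹ * y⁻¹ * φ x * y) * φ z * ((φ z)⁻¹ * y⁻¹ * φ z * y) := by group
  have h4 : (x * z)⁻¹ * (φ y)⁻¹ * (x * z) * φ y =
      z⁻¹ * (x⁻¹ * (φ y)⁻¹ * x * φ y) * z * (z⁻¹ * (φ y)⁻¹ * z * φ y) := by group
  rw [h2, h4, hE x y, hE z y] at h1
  exact mul_right_cancel h1

theorem sp_G {c : G} (hc : c ∈ commutator G) (z : G) : (φ z)⁻¹ * c * φ z = z⁻¹ * c * z := by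
  have h0 : ∀ x y : G, (φ z)⁻¹ * (x⁻¹ * y⁻¹ * x * y) * φ z = z⁻¹ * (x⁻¹ * y⁻¹ * x * y) * z := by
    intro x y
    have := sp_G0 φ h3 hs x (φ (φ y)) z
    rwa [h3] at this
  let K : Subgroup G :=
    { carrier := {c | (φ z)⁻¹ * c * φ z = z⁻¹ * c * z}
      one_mem' := by simp
      mul_mem' := by
        intro a b ha hb
        have ha' : (φ z)⁻¹ * a * φ z = z⁻¹ * a * z := ha
        have hb' : (φ z)⁻¹ * b * φ z = z⁻¹ * b * z := hb
        show (φ z)⁻¹ * (a * b) * φ z = z⁻¹ * (a * b) * z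
        have e1 : (φ z)⁻¹ * (a * b) * φ z = ((φ z)⁻¹ * a * φ z) * ((φ z)⁻¹ * b * φ z) := by group
        rw [e1, ha', hb']; group
      inv_mem' := by
        intro a ha
        have ha' : (φ z)⁻¹ * a * φ z = z⁻¹ * a * z := ha
        show (φ z)⁻¹ * a⁻¹ * φ z = z⁻¹ * a⁻¹ * z
        have e1 : (φ z)⁻¹ * a⁻¹ * φ z = ((φ z)⁻¹ * a * φ z)⁻¹ := by group
        rw [e1, ha']; group }
  have hK : commutator G ≤ K := by
    rw [_root_.commutator_def, commutator_le]
    intro x _ y _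
    have := h0 x⁻¹ y⁻¹
    simp only [inv_inv] at this
    exact this
  exact hK hc

theorem sp_fix {c : G} (hc : c ∈ commutator G) (z : G) : φ ⁅c, z⁆ = ⁅c, z⁆ := by
  have hc' : c⁻¹ ∈ commutator G := inv_mem hc
  have hφ : φ c⁻¹ ∈ commutator G := by
    have h1 : (commutator G).map φ.toMonoidHom ≤ commutator G := by
      rw [_root_.commutator_def, map_commutator]
      exact commutator_mono le_top le_top
    exact h1 (mem_map_of_mem φ.toMonoidHom hc')
  have h1 := sp_E φ h3 hs c⁻¹ z⁻¹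
  have h2 := sp_G φ h3 hs hc' z⁻¹
  have h4 := sp_G φ h3 hs hφ z⁻¹
  simp only [map_inv, inv_inv] at h1 h2 h4
  rw [commutatorElement_def, map_mul, map_mul, map_mul, map_inv, map_inv]
  have e1 : φ c * φ z * (φ c)⁻¹ * (φ z)⁻¹ = φ c * (φ z * (φ c)⁻¹ * (φ z)⁻¹) := by group
  have e2 : c * φ z * c⁻¹ * (φ z)⁻¹ = c * (φ z * c⁻¹ * (φ z)⁻¹) := by group
  rw [e1, h4]
  rw [e2, h2] at h1
  rw [← mul_assoc, ← mul_assoc, h1]
  group

/-- a torsion group with an automorphism `φ` such that `φ³ = 1` and `x φ(x) φ²(x) = 1` for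
all `x` is locally finite -/
theorem lf_splitting (ht : ∀ g : G, IsOfFinOrder g) : LF G := by
  let P : Subgroup G := ⁅commutator G, (⊤ : Subgroup G)⁆
  have hP3 : ∀ g ∈ P, g ^ 3 = 1 := by
    let K : Subgroup G :=
      { carrier := {c | φ c = c}
        one_mem' := map_one φ
        mul_mem' := by
          intro a b ha hb
          show φ (a * b) = a * b
          rw [map_mul, show φ a = a from ha, show φ b = b from hb]
        inv_mem' := by
          intro a ha
          show φ a⁻¹ = a⁻¹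
          rw [map_inv, show φ a = a from ha] }
    have hK : P ≤ K := by
      show ⁅commutator G, (⊤ : Subgroup G)⁆ ≤ K
      rw [commutator_le]
      intro x hx y _
      exact sp_fix φ h3 hs hx y
    intro g hg
    have h1 : φ g = g := hK hg
    have h2 := hs g
    rw [h1, h1] at h2
    rw [pow_three, ← mul_assoc]; exact h2
  have hPn : P.Normal := inferInstance
  refine lf_ext (commutator G) ?_ ?_
  · have hn : (P.subgroupOf (commutator G)).Normal := inferInstance
    refine lf_ext (P.subgroupOf (commutator G)) ?_ ?_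
    · refine lf_exp3 ?_
      rintro ⟨⟨g, hg⟩, hg'⟩
      have : g ^ 3 = 1 := hP3 g hg'
      ext; exact this
    · refine lf_comm ?_ ?_
      · intro x y
        obtain ⟨x, rfl⟩ := QuotientGroup.mk'_surjective _ x
        obtain ⟨y, rfl⟩ := QuotientGroup.mk'_surjective _ y
        rw [← map_mul, ← map_mul, QuotientGroup.mk'_eq_mk']
        refine ⟨(x * y)⁻¹ * (y * x), ?_, by group⟩
        rw [mem_subgroupOf]
        have e : (((x * y)⁻¹ * (y * x) : commutator G) : G) = ⁅(y : G)⁻¹, (x : G)⁻¹⁆ := by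
          simp [commutatorElement_def, mul_assoc]
        rw [e]
        exact commutator_mem_commutator (inv_mem y.2) (mem_top _)
      · intro g
        obtain ⟨g, rfl⟩ := QuotientGroup.mk'_surjective _ g
        exact MonoidHom.isOfFinOrder _ (Submonoid.isOfFinOrder_coe.mp (ht g))
  · refine lf_comm ?_ ?_
    · intro x y
      obtain ⟨x, rfl⟩ := QuotientGroup.mk'_surjective _ x
      obtain ⟨y, rfl⟩ := QuotientGroup.mk'_surjective _ y
      rw [← map_mul, ← map_mul, QuotientGroup.mk'_eq_mk']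
      refine ⟨(x * y)⁻¹ * (y * x), ?_, by group⟩
      have e : (x * y)⁻¹ * (y * x) = ⁅(y : G)⁻¹, (x : G)⁻¹⁆ := by
        simp [commutatorElement_def, mul_assoc]
      rw [e]
      exact commutator_mem_commutator (mem_top _) (mem_top _)
    · intro g
      obtain ⟨g, rfl⟩ := QuotientGroup.mk'_surjective _ g
      exact MonoidHom.isOfFinOrder _ (ht g)

end splitting

end H309.Burn
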