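import Pool.Agent.H309.Burn.Claims
import Pool.Agent.H309.Burn.LocFin

/-!
Groups in which for any two elements `a, b` of trivial cube one of `(a b)³`, `(a b⁻¹)³` is
trivial: the components of the graph of strict pairs.
-/

universe u

namespace H309.Burn

open Subgroup Relation

variable {G : Type u} [Group G]

theorem pci {a b : G} (h : (a * b) ^ 3 = 1) : (b * a) ^ 3 = 1 := by
  have h1 : b * a = a⁻¹ * (a * b) * a := by group
  rw [h1]; exact conj3 a h

theorem inv3 {a : G} (h : a ^ 3 = 1) : a⁻¹ ^ 3 = 1 := by rw [inv_pow, h, inv_one]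

theorem inv3' {a : G} (h : a⁻¹ ^ 3 = 1) : a ^ 3 = 1 := by
  have := inv3 h
  rwa [inv_inv] at this

/-- `x` and `y` have trivial cube, and one of `(x y⁻¹)³`, `(x y)³` is not trivial -/
def Adj (x y : G) : Prop := x ^ 3 = 1 ∧ y ^ 3 = 1 ∧ ((x * y⁻¹) ^ 3 ≠ 1 ∨ (x * y) ^ 3 ≠ 1)

theorem Adj.symm {x y : G} (h : Adj x y) : Adj y x := by
  obtain ⟨hx, hy, h | h⟩ := h
  · refine ⟨hy, hx, Or.inl fun h1 => h ?_⟩
    have := inv3 h1
    rwa [mul_inv_rev, inv_inv] at this
  · exact ⟨hy, hx, Or.inr fun h1 => h (pci h1)⟩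

theorem Adj.inv {x y : G} (h : Adj x y) : Adj x y⁻¹ := by
  obtain ⟨hx, hy, h | h⟩ := h
  · exact ⟨hx, inv3 hy, Or.inr h⟩
  · exact ⟨hx, inv3 hy, Or.inl (by rwa [inv_inv])⟩

theorem Adj.conj {x y : G} (c : G) (h : Adj x y) : Adj (c * x * c⁻¹) (c * y * c⁻¹) := by
  have key : ∀ {z : G}, (c * z * c⁻¹) ^ 3 = 1 ↔ z ^ 3 = 1 := by
    intro z
    rw [conj_pow]
    constructor
    · intro h1
      have h2 : z ^ 3 = c⁻¹ * (c * z ^ 3 * c⁻¹) * c := by group
      rw [h2, h1]; group
    · intro h1; rw [h1]; group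
  obtain ⟨hx, hy, h⟩ := h
  refine ⟨key.mpr hx, key.mpr hy, ?_⟩
  have e1 : c * x * c⁻¹ * (c * y * c⁻¹)⁻¹ = c * (x * y⁻¹) * c⁻¹ := by group
  have e2 : c * x * c⁻¹ * (c * y * c⁻¹) = c * (x * y) * c⁻¹ := by group
  rw [e1, e2]
  exact h.imp (fun h1 h2 => h1 (key.mp h2)) (fun h1 h2 => h1 (key.mp h2))

/-- connected -/
def Conn (x y : G) : Prop := ReflTransGen Adj x y

theorem Conn.symm {x y : G} (h : Conn x y) : Conn y x := by
  induction h with
  | refl => exact ReflTransGen.refl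
  | tail _ h ih => exact (ReflTransGen.single (Adj.symm h)).trans ih

theorem Conn.trans {x y z : G} (h : Conn x y) (h' : Conn y z) : Conn x z :=
  ReflTransGen.trans h h'

theorem Conn.cube {x y : G} (hx : x ^ 3 = 1) (h : Conn x y) : y ^ 3 = 1 := by
  rcases ReflTransGen.cases_tail h with h | ⟨z, _, h⟩
  · rw [h]; exact hx
  · exact h.2.1

theorem Conn.conj {x y : G} (c : G) (h : Conn x y) : Conn (c * x * c⁻¹) (c * y * c⁻¹) := by
  induction h with
  | refl => exact ReflTransGen.refl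
  | tail _ h ih => exact ReflTransGen.tail ih (Adj.conj c h)

/-- every element of the component of an element with a neighbour has a neighbour -/
theorem Conn.nbr {a b z : G} (hab : Adj a b) (h : Conn a z) : ∃ w, Adj z w := by
  rcases ReflTransGen.cases_tail h with h | ⟨w, _, h⟩
  · exact ⟨b, by rw [h]; exact hab⟩
  · exact ⟨w, h.symm⟩

theorem Conn.inv {a b z : G} (hab : Adj a b) (h : Conn a z) : Conn a z⁻¹ := by
  obtain ⟨w, hw⟩ := Conn.nbr hab h
  exact (h.trans (ReflTransGen.single hw)).trans (ReflTransGen.single hw.symm.inv)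

theorem Conn.conj_self {x y : G} (h : Conn x y) : Conn x (x * y * x⁻¹) := by
  have h1 := h.conj x
  have e : x * x * x⁻¹ = x := by group
  rwa [e] at h1

section

variable (hT : HH G)

include hT

theorem F0p {x y z : G} (hx : x ^ 3 = 1) (hy : y ^ 3 = 1) (hz : z ^ 3 = 1)
    (hxy : (x * y⁻¹) ^ 3 ≠ 1) (hyz : (y * z⁻¹) ^ 3 ≠ 1) : (x * y⁻¹ * z) ^ 3 = 1 := by
  have h1 : (x * y) ^ 3 = 1 := (hT x y hx hy).resolve_right hxy
  have h2 : (y * z) ^ 3 = 1 := (hT y z hy hz).resolve_right hyz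
  by_cases h3 : (x * z⁻¹) ^ 3 = 1
  · by_cases h4 : (x * z) ^ 3 = 1
    · rcases claimP3 hT hx hy hz h1 h4 h3 h2 with h | h | h
      · exact absurd h hxy
      · exact absurd h hyz
      · exact h
    · exfalso
      rcases claimF1 hT hy hx hz (pci h1) h2 h3 with h | h | h
      · apply hxy
        have := inv3 h
        rwa [mul_inv_rev, inv_inv] at this
      · exact hyz h
      · exact h4 h
  · have h4 : (x * z) ^ 3 = 1 := (hT x z hx hz).resolve_right h3
    rcases claimP1 hT hx hy hz h1 h4 h2 with h | h | h | h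
    · exact absurd h hxy
    · exact absurd h h3
    · exact absurd h hyz
    · exact h

theorem F0m {x y z : G} (hx : x ^ 3 = 1) (hy : y ^ 3 = 1) (hz : z ^ 3 = 1)
    (hxy : (x * y⁻¹) ^ 3 ≠ 1) (hyz : (y * z) ^ 3 ≠ 1) : (x * y⁻¹ * z) ^ 3 = 1 := by
  -- `c = z⁻¹`; the claim is that `y x⁻¹ c` has trivial cube
  have hc : z⁻¹ ^ 3 = 1 := inv3 hz
  have h1 : (x * y) ^ 3 = 1 := (hT x y hx hy).resolve_right hxy
  have hyc : (y * z⁻¹⁻¹) ^ 3 ≠ 1 := by rwa [inv_inv]
  have h2 : (y * z⁻¹) ^ 3 = 1 := (hT y z⁻¹ hy hc).resolve_right hyc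
  have hyx : (y * x⁻¹) ^ 3 ≠ 1 := by
    intro h
    apply hxy
    have := inv3 h
    rwa [mul_inv_rev, inv_inv] at this
  have key : (y * x⁻¹ * z⁻¹) ^ 3 = 1 := by
    by_cases h3 : (x * z⁻¹⁻¹) ^ 3 = 1
    · by_cases h4 : (x * z⁻¹) ^ 3 = 1
      · rcases claimP2 hT hy hx hc (pci h1) h2 h4 h3 with h | h | h
        · exact absurd h hyx
        · exact absurd h hyc
        · exact h
      · exfalso
        rcases claimF1 hT hy hx hc (pci h1) h2 h3 with h | h | h
        · exact hyx h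
        · exact hyc h
        · exact h4 h
    · have h4 : (x * z⁻¹) ^ 3 = 1 := (hT x z⁻¹ hx hc).resolve_right h3
      rcases claimP1 hT hy hx hc (pci h1) h2 h4 with h | h | h | h
      · exact absurd h hyx
      · exact absurd h hyc
      · exact absurd h h3
      · exact h
  have e : (y * x⁻¹ * z⁻¹)⁻¹ = z * (x * y⁻¹) := by group
  have h5 := inv3 key
  rw [e] at h5
  exact pci h5

theorem F0 {x y z : G} (hx : x ^ 3 = 1) (hxy : (x * y⁻¹) ^ 3 ≠ 1) (hyz : Adj y z) :
    (x * y⁻¹ * z) ^ 3 = 1 := by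
  obtain ⟨hy, hz, h | h⟩ := hyz
  · exact F0p hT hx hy hz hxy h
  · exact F0m hT hx hy hz hxy h

/-- an element `k` of nontrivial cube which maps one element `w` of a component to an element of
trivial cube maps the component into itself -/
theorem comp_mul {k w z : G} (hk : k ^ 3 ≠ 1) (hw : w ^ 3 = 1) (hkw : (k * w) ^ 3 = 1)
    (h : Conn w z) : Conn w (k * z) := by
  have h1 : (k * z) ^ 3 = 1 := by
    induction h with
    | refl => exact hkw
    | @tail y z hwy hyz ih =>
      have h2 := F0 hT (x := k * y) (y := y) (z := z) ih (by rwa [mul_inv_cancel_right]) hyz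
      rwa [mul_inv_cancel_right] at h2
  refine h.trans (ReflTransGen.single ⟨h.cube hw, h1, Or.inl ?_⟩)
  intro h2
  apply hk
  have h3 := inv3 h2
  have e : (z * (k * z)⁻¹)⁻¹ = k := by group
  rwa [e] at h3

/-- elements of trivial cube outside of a component map it into itself -/
theorem out_mul {a b v z : G} (hab : Adj a b) (hv : v ^ 3 = 1) (hva : ¬ Conn a v)
    (hz : Conn a z) : Conn a (v * z) := by
  by_contra hvz
  -- elements of trivial cube outside of the component are not adjacent to the elements of it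
  have key : ∀ u c : G, u ^ 3 = 1 → ¬ Conn a u → Conn a c → (u * c⁻¹) ^ 3 = 1 ∧
      (u * c) ^ 3 = 1 := by
    intro u c hu hua hc
    by_contra h
    apply hua
    have h1 : Adj u c := by
      refine ⟨hu, hc.cube hab.1, ?_⟩
      by_contra h2
      push Not at h2
      exact h h2
    exact hc.trans (ReflTransGen.single h1.symm)
  obtain ⟨w, hw⟩ := Conn.nbr hab hz
  obtain ⟨b', hzb, hb⟩ : ∃ b' : G, Adj z b' ∧ (b' * z⁻¹) ^ 3 ≠ 1 := by
    obtain ⟨h1, h2, h3 | h3⟩ := id hw
    · refine ⟨w, hw, fun h4 => h3 ?_⟩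
      have := inv3 h4
      rwa [mul_inv_rev, inv_inv] at this
    · refine ⟨w⁻¹, hw.inv, fun h4 => h3 ?_⟩
      have := inv3 h4
      rwa [mul_inv_rev, inv_inv, inv_inv] at this
  have hz3 : z ^ 3 = 1 := hz.cube hab.1
  have hb3 : b' ^ 3 = 1 := hzb.2.1
  have hab' : Conn a b' := hz.trans (ReflTransGen.single hzb)
  have h1 : (b' * z) ^ 3 = 1 := (hT b' z hb3 hz3).resolve_right hb
  obtain ⟨h2, h3⟩ := key v b' hv hva hab'
  obtain ⟨h4, h5⟩ := key v z hv hva hz
  obtain ⟨h6, h7⟩ := key (v * z) b' h5 hvz hab'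
  exact hb (claimP5 hT hv hb3 hz3 h1 h3 h2 h5 h4 h7 h6)

/-- conjugation by elements of trivial cube preserves the components of elements with a
neighbour -/
theorem conj_comp {a b v z : G} (hab : Adj a b) (hv : v ^ 3 = 1) (hz : Conn a z) :
    Conn a (v * z * v⁻¹) := by
  by_cases hva : Conn a v
  · exact hva.trans (hva.symm.trans hz).conj_self
  · -- `z v⁻¹ = (v z⁻¹)⁻¹`
    have h1 : Conn a (v * z⁻¹) := out_mul hT hab hv hva (hz.inv hab)
    have h2 : Conn a (z * v⁻¹) := by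
      have := h1.inv hab
      rwa [mul_inv_rev, inv_inv] at this
    have h3 := out_mul hT hab hv hva h2
    rwa [← mul_assoc] at h3

end

end H309.Burn
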