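import Pool.Agent.H309.Burn.Comp

/-!
Local finiteness of the subgroup generated by the elements of order 3.
-/

universe u

namespace H309.Burn

open Subgroup Relation

variable {G : Type u} [Group G]

/-- a subgroup generated by a set closed under conjugation by elements of trivial cube is normal,
if these elements generate the group -/
theorem normal_closure_of (hD : closure {t : G | t ^ 3 = 1} = ⊤) (S : Set G)
    (hS : ∀ v z : G, v ^ 3 = 1 → z ∈ S → v * z * v⁻¹ ∈ S) : (closure S).Normal := by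
  have h1 : ∀ g : G, (∀ z ∈ S, g * z * g⁻¹ ∈ S) ∧ (∀ z ∈ S, g⁻¹ * z * g ∈ S) := by
    intro g
    have hg : g ∈ closure {t : G | t ^ 3 = 1} := by rw [hD]; trivial
    induction hg using closure_induction with
    | mem x hx =>
      refine ⟨fun z hz => hS x z hx hz, fun z hz => ?_⟩
      have := hS x⁻¹ z (inv3 hx) hz
      rwa [inv_inv] at this
    | one => exact ⟨fun z hz => by simpa using hz, fun z hz => by simpa using hz⟩
    | mul x y _ _ hx hy =>
      refine ⟨fun z hz => ?_, fun z hz => ?_⟩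
      · have := hx.1 _ (hy.1 z hz)
        have e : x * y * z * (x * y)⁻¹ = x * (y * z * y⁻¹) * x⁻¹ := by group
        rwa [e]
      · have := hy.2 _ (hx.2 z hz)
        have e : (x * y)⁻¹ * z * (x * y) = y⁻¹ * (x⁻¹ * z * x) * y := by group
        rwa [e]
    | inv x _ hx =>
      refine ⟨fun z hz => ?_, fun z hz => ?_⟩
      · rw [inv_inv]; exact hx.2 z hz
      · rw [inv_inv]; exact hx.1 z hz
  refine ⟨fun n hn g => ?_⟩
  induction hn using closure_induction with
  | mem z hz => exact subset_closure ((h1 g).1 z hz)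
  | one => simp [one_mem]
  | mul a b _ _ ha hb =>
    have : g * (a * b) * g⁻¹ = (g * a * g⁻¹) * (g * b * g⁻¹) := by group
    rw [this]; exact mul_mem ha hb
  | inv a _ ha =>
    have : g * a⁻¹ * g⁻¹ = (g * a * g⁻¹)⁻¹ := by group
    rw [this]; exact inv_mem ha

/-- the generators of the kernel of a component -/
def Ks (a : G) : Set G := {k | ∃ x y : G, Conn a x ∧ Conn a y ∧ (x * y⁻¹) ^ 3 ≠ 1 ∧ k = x * y⁻¹}

/-- the kernel of a component -/
def KK (a : G) : Subgroup G := closure (Ks a)

section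

variable (hT : HH G)

include hT

theorem KK_mul {a : G} (ha : a ^ 3 = 1) {k : G} (hk : k ∈ KK a) {z : G} (hz : Conn a z) :
    Conn a (k * z) := by
  have h0 : ∀ x y z : G, Conn a x → Conn a y → (x * y⁻¹) ^ 3 ≠ 1 → Conn a z →
      Conn a (x * y⁻¹ * z) := by
    intro x y z hx hy hxy hz
    refine hy.trans (comp_mul hT hxy (hy.cube ha) ?_ (hy.symm.trans hz))
    rw [inv_mul_cancel_right]; exact hx.cube ha
  have h1 : ∀ k ∈ KK a, (∀ z, Conn a z → Conn a (k * z)) ∧ (∀ z, Conn a z → Conn a (k⁻¹ * z)) := by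
    intro k hk
    induction hk using closure_induction with
    | mem k hk =>
      obtain ⟨x, y, hx, hy, hxy, rfl⟩ := hk
      refine ⟨fun z hz => h0 x y z hx hy hxy hz, fun z hz => ?_⟩
      rw [mul_inv_rev, inv_inv]
      refine h0 y x z hy hx (fun h => hxy ?_) hz
      have := inv3 h
      rwa [mul_inv_rev, inv_inv] at this
    | one => exact ⟨fun z hz => by simpa using hz, fun z hz => by simpa using hz⟩
    | mul k l _ _ hk hl =>
      refine ⟨fun z hz => ?_, fun z hz => ?_⟩
      · rw [mul_assoc]; exact hk.1 _ (hl.1 z hz)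
      · rw [mul_inv_rev, mul_assoc]; exact hl.2 _ (hk.2 z hz)
    | inv k _ hk => exact ⟨hk.2, fun z hz => by rw [inv_inv]; exact hk.1 z hz⟩
  exact (h1 k hk).1 z hz

theorem lf_KK {a : G} (ha : a ^ 3 = 1) [hn : (KK a).Normal] (ht : ∀ g : G, IsOfFinOrder g) :
    LF (KK a) := by
  have hc : ∀ k ∈ KK a, (k * a) ^ 3 = 1 := fun k hk => (KK_mul hT ha hk ReflTransGen.refl).cube ha
  refine lf_splitting (MulAut.conjNormal a : MulAut (KK a)) ?_ ?_ ?_
  · intro x
    ext
    simp only [MulAut.conjNormal_apply]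
    have e : a * (a * (a * (x : G) * a⁻¹) * a⁻¹) * a⁻¹ = a ^ 3 * x * (a ^ 3)⁻¹ := by
      simp [pow_succ, mul_assoc]
    rw [e, ha]; simp
  · intro x
    ext
    simp only [MulAut.conjNormal_apply, Subgroup.coe_mul, Subgroup.coe_one]
    have e : (x : G) * (a * x * a⁻¹) * (a * (a * x * a⁻¹) * a⁻¹) =
        (x * a) ^ 3 * (a ^ 3)⁻¹ := by
      simp [pow_succ, mul_assoc]
    rw [e, hc x x.2, ha]; simp
  · intro g
    exact Submonoid.isOfFinOrder_coe.mp (ht g)

theorem Ks_conj {a b : G} (hab : Adj a b) (v z : G) (hv : v ^ 3 = 1) (hz : z ∈ Ks a) :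
    v * z * v⁻¹ ∈ Ks a := by
  obtain ⟨x, y, hx, hy, hxy, rfl⟩ := hz
  refine ⟨v * x * v⁻¹, v * y * v⁻¹, conj_comp hT hab hv hx, conj_comp hT hab hv hy, ?_, by group⟩
  intro h
  apply hxy
  have h1 := conj3 v h
  have e : v⁻¹ * (v * x * v⁻¹ * (v * y * v⁻¹)⁻¹) * v = x * y⁻¹ := by group
  rwa [e] at h1

/-- the subgroup generated by a component is locally finite -/
theorem lf_comp (hD : closure {t : G | t ^ 3 = 1} = ⊤) (ht : ∀ g : G, IsOfFinOrder g)
    {a b : G} (hab : Adj a b) : LF (closure {z : G | Conn a z}) := by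
  have hn : (KK a).Normal := normal_closure_of hD _ (Ks_conj hT hab)
  have h1 : LF (KK a) := lf_KK hT hab.1 ht
  have h2 : LF (zpowers a) := by
    have hf : IsOfFinOrder a := ht a
    have : Finite (zpowers a) := by
      rw [← Nat.card_pos_iff.trans (and_iff_right ⟨1, one_mem _⟩)]
      rw [Nat.card_zpowers]; exact hf.orderOf_pos
    exact lf_finite
  refine (lf_sup (KK a) (zpowers a) h1 h2).of_le ?_
  rw [closure_le]
  intro z hz
  have hz' : Conn a z := hz
  induction hz' with
  | refl => exact mem_sup_right (mem_zpowers a)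
  | @tail y z hay hyz ih =>
    have ih' := ih hay
    have haz : Conn a z := ReflTransGen.tail hay hyz
    obtain ⟨hy, hz3, h | h⟩ := hyz
    · have h3 : y * z⁻¹ ∈ KK a := subset_closure ⟨y, z, hay, haz, h, rfl⟩
      have e : z = (y * z⁻¹)⁻¹ * y := by group
      rw [e]
      exact mul_mem (inv_mem (mem_sup_left h3)) ih'
    · have h3 : y * z⁻¹⁻¹ ∈ KK a :=
        subset_closure ⟨y, z⁻¹, hay, haz.inv hab, by rwa [inv_inv], rfl⟩
      have e : z = y⁻¹ * (y * z⁻¹⁻¹) := by group
      rw [e]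
      exact mul_mem (inv_mem ih') (mem_sup_left h3)

omit hT in
/-- the neutral elements -/
def UU (G : Type u) [Group G] : Subgroup G where
  carrier := {u | u ^ 3 = 1 ∧ ∀ d : G, d ^ 3 = 1 → (u * d) ^ 3 = 1}
  one_mem' := ⟨one_pow 3, fun d hd => by rwa [one_mul]⟩
  mul_mem' := by
    rintro u v ⟨hu, hu'⟩ ⟨hv, hv'⟩
    refine ⟨hu' v hv, fun d hd => ?_⟩
    rw [mul_assoc]; exact hu' _ (hv' d hd)
  inv_mem' := by
    rintro u ⟨hu, hu'⟩
    refine ⟨inv3 hu, fun d hd => ?_⟩
    have h1 := inv3 (hu' d⁻¹ (inv3 hd))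
    rw [mul_inv_rev, inv_inv] at h1
    exact pci h1

omit hT in
theorem UU_normal : (UU G).Normal := by
  refine ⟨fun u hu g => ?_⟩
  obtain ⟨hu, hu'⟩ := hu
  have key : ∀ c z : G, z ^ 3 = 1 → (c * z * c⁻¹) ^ 3 = 1 := by
    intro c z hz
    have := conj3 c⁻¹ hz
    rwa [inv_inv] at this
  refine ⟨key g u hu, fun d hd => ?_⟩
  have h1 := hu' (g⁻¹ * d * g) (conj3 g hd)
  have h2 := key g _ h1
  have e : g * (u * (g⁻¹ * d * g)) * g⁻¹ = g * u * g⁻¹ * d := by group
  rwa [e] at h2

omit hT in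
theorem lf_UU : LF (UU G) := by
  refine lf_exp3 ?_
  intro g
  ext
  exact_mod_cast g.2.1

/-- a torsion group generated by elements of order 3 which satisfies the hypothesis is locally
finite -/
theorem lf_gen (hD : closure {t : G | t ^ 3 = 1} = ⊤) (ht : ∀ g : G, IsOfFinOrder g) : LF G := by
  refine lf_of_rad _ hD ?_
  intro a ha
  by_cases h : ∃ b, Adj a b
  · obtain ⟨b, hab⟩ := h
    refine ⟨closure {z : G | Conn a z}, ?_, lf_comp hT hD ht hab,
      subset_closure ReflTransGen.refl⟩
    exact normal_closure_of hD _ (fun v z hv hz => conj_comp hT hab hv hz)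
  · refine ⟨UU G, UU_normal, lf_UU, ha, fun d hd => ?_⟩
    by_contra h1
    exact h ⟨d, ha, hd, Or.inr h1⟩

end

theorem HH.subgroup (hT : HH G) (H : Subgroup G) : HH H := by
  intro a b ha hb
  have ha' : (a : G) ^ 3 = 1 := by exact_mod_cast congrArg Subtype.val ha
  have hb' : (b : G) ^ 3 = 1 := by exact_mod_cast congrArg Subtype.val hb
  rcases hT a b ha' hb' with h | h
  · left; ext; exact_mod_cast h
  · right; ext; exact_mod_cast h

/-- the subgroup generated by the elements of order 3 -/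
def TT (G : Type u) [Group G] : Subgroup G := closure {t : G | t ^ 3 = 1}

theorem TT_normal : (TT G).Normal := by
  refine ⟨fun n hn g => ?_⟩
  unfold TT at hn
  induction hn using closure_induction with
  | mem t ht =>
    refine subset_closure ?_
    have ht' : t ^ 3 = 1 := ht
    show (g * t * g⁻¹) ^ 3 = 1
    rw [conj_pow, ht']; simp
  | one => simp [one_mem]
  | mul a b _ _ ha hb =>
    have : g * (a * b) * g⁻¹ = (g * a * g⁻¹) * (g * b * g⁻¹) := by group
    rw [this]; exact mul_mem ha hb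
  | inv a _ ha =>
    have : g * a⁻¹ * g⁻¹ = (g * a * g⁻¹)⁻¹ := by group
    rw [this]; exact inv_mem ha

/-- **Main theorem.** -/
theorem lf_TT (hT : HH G) (ht : ∀ g ∈ TT G, IsOfFinOrder g) : LF (TT G) := by
  refine lf_gen (hT.subgroup _) ?_ ?_
  · rw [eq_top_iff]
    have h1 : (closure {t : TT G | t ^ 3 = 1}).map (TT G).subtype = TT G := by
      rw [MonoidHom.map_closure]
      unfold TT
      congr 1
      ext x
      constructor
      · rintro ⟨y, hy, rfl⟩
        have hy' : ((y ^ 3 : closure {t : G | t ^ 3 = 1}) : G) = 1 := by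
          rw [show y ^ 3 = 1 from hy]; rfl
        exact hy'
      · intro hx
        exact ⟨⟨x, subset_closure hx⟩, by ext; exact hx, rfl⟩
    intro x _
    have h2 : (x : G) ∈ (closure {t : TT G | t ^ 3 = 1}).map (TT G).subtype := by
      rw [h1]; exact x.2
    obtain ⟨y, hy, hxy⟩ := h2
    have : y = x := by ext; exact hxy
    rwa [← this]
  · intro g
    exact Submonoid.isOfFinOrder_coe.mp (ht g g.2)

/-- exponent `3 m`, where every group of exponent `m` is locally finite -/
theorem finite_exp (m : ℕ) (hm : 0 < m)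
    (hL : ∀ (K : Type u) [Group K], Group.FG K → (∀ g : K, g ^ m = 1) → Finite K)
    (hT : HH G) (hfg : Group.FG G) (hG : ∀ g : G, g ^ (3 * m) = 1) : Finite G := by
  have hn : (TT G).Normal := TT_normal
  have ht : ∀ g : G, IsOfFinOrder g := fun g =>
    isOfFinOrder_iff_pow_eq_one.mpr ⟨3 * m, by omega, hG g⟩
  have hQ : Finite (G ⧸ TT G) := by
    have hfgQ : Group.FG (G ⧸ TT G) := QuotientGroup.fg _
    refine hL _ hfgQ ?_
    intro q
    obtain ⟨g, rfl⟩ := QuotientGroup.mk_surjective q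
    rw [← QuotientGroup.mk_pow, QuotientGroup.eq_one_iff]
    refine subset_closure ?_
    show (g ^ m) ^ 3 = 1
    rw [← pow_mul, mul_comm]; exact hG g
  have hfi : (TT G).FiniteIndex := Subgroup.finiteIndex_of_finite_quotient
  have hfg' : Group.FG (TT G) := fg_of_index_ne_zero _
  have h1 : Finite (TT G) := (lf_TT hT fun g _ => ht g).finite_of_fg hfg'
  exact H15.Struct.finite_of_index (TT G) hfi.index_ne_zero h1

end H309.Burn
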