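import Pool.Agent.H15R2.Tree

/-!
Case trees on top of the Todd-Coxeter checker, for groups in which for any two elements
`a, b` of trivial cube one of `(a b)³`, `(a b⁻¹)³` is trivial.
-/

namespace H309.Burn

open H15.TC

/-- the word `r⁻¹ (p⁻¹ a p) (q⁻¹ b q) r`, reduced -/
noncomputable def nodeWord (p a q b r : List ℕ) : List ℕ :=
  red3 (irev r ++ (irev p ++ a ++ p ++ irev q ++ b ++ q) ++ r)

/-- case trees: `ds` is a list of words of trivial cube; at a leaf the checker proves the cube of
a goal word trivial; at a node, one of the words `u v` and `u v⁻¹`, where `u` and `v` are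
conjugates of words of `ds`, is added to the list -/
inductive OK (goals : List (List ℕ)) : List (List ℕ) → Prop where
  | leaf (ds rels : List (List ℕ)) (d s : List ℕ) (g : ℕ) (gw : List ℕ)
      (hr : ds.map (fun w => pw w 3) = rels)
      (hg : goals[g]? = some gw) (h : check rels d s (pw gw 3) = true) : OK goals ds
  | node (ds d1 d2 : List (List ℕ)) (p a q b r1 r2 : List ℕ)
      (hab : (ds.contains a && ds.contains b) = true)
      (h1 : ds ++ [nodeWord p a q b r1] = d1) (h2 : ds ++ [nodeWord p a q (irev b) r2] = d2)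
      (t1 : OK goals d1) (t2 : OK goals d2) : OK goals ds

/-- the hypothesis: for any two elements of trivial cube one of the products `a b`, `a b⁻¹` has
trivial cube -/
def HH (G : Type*) [Group G] : Prop :=
  ∀ a b : G, a ^ 3 = 1 → b ^ 3 = 1 → (a * b) ^ 3 = 1 ∨ (a * b⁻¹) ^ 3 = 1

variable {G : Type*} [Group G] {gen : ℕ → G}

theorem conj3 (c : G) {d : G} (hd : d ^ 3 = 1) : (c⁻¹ * d * c) ^ 3 = 1 := by
  have : (c⁻¹ * d * c) ^ 3 = c⁻¹ * d ^ 3 * c := by simp [pow_succ, mul_assoc]
  rw [this, hd]; simp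

theorem ev_nodeWord (h3 : ∀ i, gen i ^ 3 = 1) (p a q b r : List ℕ) :
    ev gen (nodeWord p a q b r) = (ev gen r)⁻¹ * (((ev gen p)⁻¹ * ev gen a * ev gen p) *
      ((ev gen q)⁻¹ * ev gen b * ev gen q)) * ev gen r := by
  unfold nodeWord
  rw [ev_red3 h3]
  simp only [ev_append, ev_irev, mul_assoc]

theorem ok_sound {goals : List (List ℕ)} (h3 : ∀ i, gen i ^ 3 = 1) (hT : HH G)
    {ds : List (List ℕ)} (t : OK goals ds)
    (hd : ∀ w ∈ ds, ev gen w ^ 3 = 1) : ∃ g ∈ goals, ev gen g ^ 3 = 1 := by
  induction t with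
  | leaf ds rels d s g gw hr hg h =>
    refine ⟨gw, List.mem_of_getElem? hg, ?_⟩
    rw [← ev_pw]
    refine check_sound h ?_
    intro r hr'
    rw [← hr, List.mem_map] at hr'
    obtain ⟨w, hw, rfl⟩ := hr'
    rw [ev_pw]; exact hd w hw
  | node ds d1 d2 p a q b r1 r2 hab e1 e2 _ _ ih1 ih2 =>
    rw [Bool.and_eq_true] at hab
    obtain ⟨ha, hb⟩ := hab
    have ha' : ev gen a ^ 3 = 1 := hd a (by simpa using ha)
    have hb' : ev gen b ^ 3 = 1 := hd b (by simpa using hb)
    rcases hT _ _ (conj3 (ev gen p) ha') (conj3 (ev gen q) hb') with h5 | h5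
    · refine ih1 ?_
      rw [← e1]
      intro r hr'
      rcases List.mem_append.mp hr' with h6 | h6
      · exact hd r h6
      · rw [List.mem_singleton.mp h6, ev_nodeWord h3]; exact conj3 _ h5
    · refine ih2 ?_
      rw [← e2]
      intro r hr'
      rcases List.mem_append.mp hr' with h6 | h6
      · exact hd r h6
      · rw [List.mem_singleton.mp h6, ev_nodeWord h3, ev_irev]
        refine conj3 _ ?_
        have e : (ev gen q)⁻¹ * (ev gen b)⁻¹ * ev gen q =
            ((ev gen q)⁻¹ * ev gen b * ev gen q)⁻¹ := by group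
        rw [e]; exact h5

/-- the three generators -/
def gen3 (a b c : G) (i : ℕ) : G := if i = 0 then a else if i = 1 then b else if i = 2 then c else 1

theorem gen3_cube {a b c : G} (ha : a ^ 3 = 1) (hb : b ^ 3 = 1) (hc : c ^ 3 = 1) (i : ℕ) :
    gen3 a b c i ^ 3 = 1 := by
  unfold gen3
  split_ifs <;> simp [*]

end H309.Burn
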